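import Pool.Agent.Q60.HD.Main
import Pool.Agent.Y121.AH.Fix

/-!
# The bound in terms of the Betti number
-/

open CategoryTheory AlgebraicGeometry TensorProduct

set_option linter.unusedSectionVars false

universe u v

namespace Pool.Agent.Q60.HD

open Module Matrix
open Pool.Agent.H914 Pool.Agent.H914.VarClass Pool.Agent.H914.VarClass.Obj
  Pool.Agent.H914.WeilCohomology
open Pool.Agent.Y133.Half Pool.Agent.Y121.AH Pool.Agent.Q60.ED

lemma two_mul_succ_le {n : ℕ} (hn : 3 ≤ n) : 2 * (n + 1) ≤ 2 ^ n := by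
  induction n, hn using Nat.le_induction with
  | base => norm_num
  | succ n hn ih => rw [pow_succ]; omega

/-- The arithmetic of the bound. -/
lemma arith {b d : ℕ} (hd : d + 1 ≤ b) :
    2 * ((2 * d + 1) ^ b ^ 2 * (b ^ 2 + 1) ^ (b ^ 2 + 1)) ≤ (2 * b) ^ (3 * b ^ 2) := by
  rcases Nat.lt_or_ge b 2 with hb | hb
  · obtain rfl : b = 1 := by omega
    obtain rfl : d = 0 := by omega
    norm_num
  set n := b ^ 2 with hn
  have hn4 : 4 ≤ n := by rw [hn]; nlinarith
  have h1 : (2 * d + 1) ^ n ≤ (2 * b) ^ n := Nat.pow_le_pow_left (by omega) n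
  have h2 : (n + 1) ^ n ≤ (2 * n) ^ n := Nat.pow_le_pow_left (by omega) n
  have h3 : 2 * (n + 1) ≤ 2 ^ n := two_mul_succ_le (by omega)
  have h4 : (2 * b) ^ (3 * n) = (2 * b) ^ n * ((2 * n) ^ n * 2 ^ n) := by
    have h5 : 2 * n * 2 = (2 * b) ^ 2 := by rw [hn]; ring
    rw [← mul_pow, h5, ← pow_mul, ← pow_add]
    congr 1
    ring
  rw [h4]
  calc 2 * ((2 * d + 1) ^ n * (n + 1) ^ (n + 1))
      = (2 * d + 1) ^ n * ((n + 1) ^ n * (2 * (n + 1))) := by rw [pow_succ]; ring
    _ ≤ (2 * b) ^ n * ((2 * n) ^ n * 2 ^ n) :=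
        Nat.mul_le_mul h1 (Nat.mul_le_mul h2 h3)

variable {k : Type u} [Field k] {𝒱 : VarClass k} {ops : CycleOps 𝒱}

section Dim

variable {W : WeilCohomology.{u, v} ops} {X : 𝒱.Obj}

lemma cl_pow_mem {D : X.Cycles} (hD : X.IsCyc 1 D) (j : ℕ) : W.cl X D ^ j ∈ W.gr X (2 * j) := by
  induction j with
  | zero => rw [pow_zero]; exact W.one_mem X
  | succ j ih =>
    rw [pow_succ, mul_add, mul_one]
    exact W.mul_mem ih (W.cl_mem hD)

/-- The dimension is smaller than the total Betti number. -/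
lemma dim_lt {D : X.Cycles} (hD : X.IsCyc 1 D) (hL : HardLefschetz W X D) [Nontrivial (W.H X)] :
    X.dim + 1 ≤ finrank W.K (W.H X) := by
  have h1 : W.cl X D ^ X.dim ≠ 0 := by
    intro h
    have h2 := (hL 0 (Nat.zero_le _)).1 1 (W.one_mem X)
    rw [LinearMap.pow_mulLeft, LinearMap.mulLeft_apply, Nat.sub_zero, h, zero_mul] at h2
    exact one_ne_zero (h2 rfl)
  have h2 : ∀ j : Fin (X.dim + 1), W.cl X D ^ (j : ℕ) ≠ 0 := by
    intro j h
    apply h1
    have h3 : X.dim = (j : ℕ) + (X.dim - j) := by omega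
    rw [h3, pow_add, h, zero_mul]
  have h3 : iSupIndep fun j : Fin (X.dim + 1) => W.gr X (2 * (j : ℕ)) :=
    (W.isInternal X).submodule_iSupIndep.comp fun a b hab => Fin.ext (by
      have : 2 * (a : ℕ) = 2 * (b : ℕ) := hab
      omega)
  have h4 := h3.linearIndependent _ (fun j => cl_pow_mem hD (j : ℕ)) h2
  have h5 := h4.fintype_card_le_finrank
  rwa [Fintype.card_fin] at h5

end Dim

variable {T : HodgeTheory ops} {X : 𝒱.Obj}

/-- The Hodge classes on a power are in the system if those on the next power are. -/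
lemma le_of_succ (S : Sys T.W) [Nontrivial (T.W.H X)] {m : ℕ}
    (h : (hodgeSys T).C (pw X (m + 1)) ≤ S.C (pw X (m + 1))) :
    (hodgeSys T).C (pw X m) ≤ S.C (pw X m) := by
  intro t ht
  obtain ⟨l, hl, hl1⟩ := exists_tr_hodge T X
  have hlC : l ∈ (hodgeSys T).C X := ClassPred.sp_of (Q := hodgePred T) hl
  have h1 : (xp T.W t l : T.W.H ((pw X m).prod X)) ∈ (hodgeSys T).C ((pw X m).prod X) :=
    Sys.xp_mem_C (hodgeSys T) ht hlC
  have h3 := S.push (fst (pw X m) X) (h h1)
  rwa [push_fst _ _ ((hodgeSys T).even hlC), hl1, one_smul] at h3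

lemma le_of_le (S : Sys T.W) [Nontrivial (T.W.H X)] {m n : ℕ} (hmn : m ≤ n)
    (h : (hodgeSys T).C (pw X n) ≤ S.C (pw X n)) : (hodgeSys T).C (pw X m) ≤ S.C (pw X m) := by
  induction n, hmn using Nat.le_induction with
  | base => exact h
  | succ n _ ih => exact ih (le_of_succ S h)

/-- **Effective finite determination**: the single power `X ^ N` with `N = (2 b) ^ (3 b ^ 2)`
decides. -/
theorem one_power (hR : RealH T X) {φ : Module.End T.W.K (T.W.H X)} (hφ : IsPol T X φ)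
    (S : Sys T.W) (hS : ∀ Z, S.C Z ≤ (hodgeSys T).C Z) {N : ℕ}
    (hN : (2 * finrank T.W.K (T.W.H X)) ^ (3 * finrank T.W.K (T.W.H X) ^ 2) ≤ N + 1)
    (h : (hodgeSys T).C (pw X N) ≤ S.C (pw X N)) (n : ℕ) :
    (hodgeSys T).C (pw X n) ≤ S.C (pw X n) := by
  by_cases hX : Nontrivial (T.W.H X)
  · obtain ⟨E, hE⟩ := T.dec.polar X
    have h1 := dim_lt hE.1 hE.2.1
    have h2 := arith h1
    refine effective hR hφ S hS le_rfl (fun m hm => ?_) n
    exact le_of_le S (by omega) h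
  · intro c _
    have h1 : finrank T.W.K (T.W.H X) = 0 := by
      by_contra h2
      exact hX (Module.nontrivial_of_finrank_pos (R := T.W.K) (Nat.pos_of_ne_zero h2))
    have h2 : finrank T.W.K (T.W.H (pw X n)) = 0 := by
      rw [finrank_pw, h1, zero_pow (Nat.succ_ne_zero n)]
    have h3 : Subsingleton (T.W.H (pw X n)) := Module.finrank_zero_iff.1 h2
    rw [Subsingleton.elim c 0]
    exact Submodule.zero_mem _

end Pool.Agent.Q60.HD
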