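import Pool.Agent.Q60.HD.Mlt

/-!
# Systems of classes in coordinates: contractions
-/

open CategoryTheory AlgebraicGeometry TensorProduct

set_option linter.unusedSectionVars false

universe u v

namespace Pool.Agent.Q60.HD

open Module Matrix
open Pool.Agent.H914 Pool.Agent.H914.VarClass Pool.Agent.H914.VarClass.Obj
  Pool.Agent.H914.WeilCohomology
open Pool.Agent.Y133.Half Pool.Agent.Q60.ED

variable {k : Type u} [Field k] {𝒱 : VarClass k} {ops : CycleOps 𝒱}
  {W : WeilCohomology.{u, v} ops} {X Y Z : 𝒱.Obj} {S : Sys W}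

lemma two_inv (x : W.H X) : ((2 : W.K)⁻¹) • (x + x) = x := by
  rw [← two_smul W.K, smul_smul, inv_mul_cancel₀ two_ne_zero, one_smul]

/-- The parity operator of a product. -/
lemma par_prod : par (W.isInternal (X.prod Y)) =
    extOp W (par (W.isInternal X)) (par (W.isInternal Y)) := by
  apply LinearMap.ext
  intro c
  refine xp_induction (p := fun c => par (W.isInternal (X.prod Y)) c =
    extOp W (par (W.isInternal X)) (par (W.isInternal Y)) c) ?_ ?_ c
  · intro a b ha hb
    rw [map_add, ha, hb, map_add]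
  · intro i j x hx y hy
    have h1 := extOp_tmul (W := W) (par (W.isInternal X)) (par (W.isInternal Y)) x y
    rw [PH.par (xp_mem hx hy)]
    refine Eq.trans ?_ h1.symm
    rw [PH.par hx, PH.par hy, map_smul, map_smul, smul_mul_smul_comm, ← pow_add]
    rfl

lemma par_pw (hpar : par (W.isInternal X) ∈ S.Op X X) (n : ℕ) :
    par (W.isInternal (pw X n)) ∈ S.Op (pw X n) (pw X n) := by
  induction n with
  | zero => exact hpar
  | succ n ih =>
    have h1 : par (W.isInternal ((pw X n).prod X)) ∈ S.Op ((pw X n).prod X) ((pw X n).prod X) := by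
      rw [par_prod]
      exact Sys.Op.ext ih hpar
    exact h1

/-- The sign operator. -/
noncomputable def sg (W : WeilCohomology.{u, v} ops) (X Y : 𝒱.Obj) :
    Module.End W.K (W.H (X.prod Y)) :=
  ((2 : W.K)⁻¹) • (LinearMap.id + extOp W (par (W.isInternal X)) LinearMap.id +
    extOp W LinearMap.id (par (W.isInternal Y)) -
      extOp W (par (W.isInternal X)) (par (W.isInternal Y)))

lemma sg_mem (h1 : par (W.isInternal X) ∈ S.Op X X) (h2 : par (W.isInternal Y) ∈ S.Op Y Y) :
    sg W X Y ∈ S.Op (X.prod Y) (X.prod Y) :=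
  Submodule.smul_mem _ _ (Submodule.sub_mem _ (Submodule.add_mem _ (Submodule.add_mem _
    Sys.Op.id (Sys.Op.ext h1 Sys.Op.id)) (Sys.Op.ext Sys.Op.id h2)) (Sys.Op.ext h1 h2))

lemma sg_xp {b c : ℕ} {x : W.H X} {y : W.H Y} (hx : x ∈ PH W X b) (hy : y ∈ PH W Y c) :
    sg W X Y (xp W x y) = (-1 : W.K) ^ (b * c) • xp W x y := by
  have h1 : extOp W (par (W.isInternal X)) LinearMap.id (xp W x y) = (-1 : W.K) ^ b • xp W x y := by
    refine (extOp_tmul (W := W) _ _ x y).trans ?_
    rw [PH.par hx, map_smul, smul_mul_assoc]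
    rfl
  have h2 : extOp W LinearMap.id (par (W.isInternal Y)) (xp W x y) = (-1 : W.K) ^ c • xp W x y := by
    refine (extOp_tmul (W := W) _ _ x y).trans ?_
    rw [PH.par hy, map_smul, mul_smul_comm]
    rfl
  have h3 : extOp W (par (W.isInternal X)) (par (W.isInternal Y)) (xp W x y) =
      ((-1 : W.K) ^ b * (-1 : W.K) ^ c) • xp W x y := by
    refine (extOp_tmul (W := W) _ _ x y).trans ?_
    rw [PH.par hx, PH.par hy, map_smul, map_smul, smul_mul_smul_comm]
    rfl
  rw [sg, LinearMap.smul_apply, LinearMap.sub_apply, LinearMap.add_apply, LinearMap.add_apply,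
    h1, h2, h3, LinearMap.id_apply]
  have h4 : xp W x y + (-1 : W.K) ^ b • xp W x y + (-1 : W.K) ^ c • xp W x y -
      ((-1 : W.K) ^ b * (-1 : W.K) ^ c) • xp W x y =
      (1 + (-1 : W.K) ^ b + (-1 : W.K) ^ c - (-1 : W.K) ^ b * (-1 : W.K) ^ c) • xp W x y := by
    rw [sub_smul, add_smul, add_smul, one_smul]
  rw [h4, smul_smul]
  congr 1
  have h2' : (2 : W.K) ≠ 0 := two_ne_zero
  rcases Nat.even_or_odd b with h | h <;> rcases Nat.even_or_odd c with h' | h'
  · rw [h.neg_one_pow, h'.neg_one_pow, (h.mul_right _).neg_one_pow]; field_simp; norm_num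
  · rw [h.neg_one_pow, h'.neg_one_pow, (h.mul_right _).neg_one_pow]; field_simp; norm_num
  · rw [h.neg_one_pow, h'.neg_one_pow, (h'.mul_left _).neg_one_pow]; field_simp; norm_num
  · rw [h.neg_one_pow, h'.neg_one_pow, (h.mul h').neg_one_pow]; field_simp; norm_num

variable {ι : Type} [Fintype ι] [DecidableEq ι] (e : Basis ι W.K (W.H X)) {a : ι → ℕ}

lemma wb_xp (n : ℕ) (w : Fin (n + 2) → ι) : wb e (n + 1) w =
    xp W (X := pw X n) (Y := X) (wb e n fun i => w i.castSucc) (e (w (Fin.last _))) :=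
  wb_succ e n w

/-- The operator which gives the tensor power of a form. -/
lemma exists_psi (he : ∀ j, e j ∈ PH W X (a j)) (hpar : par (W.isInternal X) ∈ S.Op X X)
    {φ : Module.End W.K (W.H X)} (hφ : φ ∈ S.Op X X) {Q : Matrix ι ι ℚ}
    (hQ : ∀ i j, ((Q i j : ℚ) : W.K) = W.tr X (φ (e i) * e j)) (n : ℕ) :
    ∃ Ψ ∈ S.Op (pw X n) (pw X n), ∀ I J : Fin (n + 1) → ι,
      W.tr (pw X n) (Ψ (wb e n I) * wb e n J) = ((TP Q (n + 1) I J : ℚ) : W.K) := by
  induction n with
  | zero =>
    refine ⟨φ, hφ, fun I J => ?_⟩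
    rw [wb_zero, wb_zero, TP_apply, Fin.prod_univ_succ, Fin.prod_univ_zero, mul_one, hQ]
    rfl
  | succ n ih =>
    obtain ⟨Ψ, hΨ, h⟩ := ih
    have hm : extOp W Ψ φ ∘ₗ sg W (pw X n) X ∈ S.Op ((pw X n).prod X) ((pw X n).prod X) :=
      Sys.Op.comp (Sys.Op.ext hΨ hφ) (sg_mem (par_pw hpar n) hpar)
    refine ⟨extOp W Ψ φ ∘ₗ sg W (pw X n) X, hm, fun I J => ?_⟩
    set I' : Fin (n + 1) → ι := fun i => I i.castSucc with hI'
    set J' : Fin (n + 1) → ι := fun i => J i.castSucc with hJ'
    have hx := wb_PH e he n I'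
    have hx' := wb_PH e he n J'
    have hy := he (I (Fin.last _))
    have hΨx := Sys.Op.ev hΨ _ _ hx
    have hφy := Sys.Op.ev hφ _ _ hy
    have e1 : (extOp W Ψ φ ∘ₗ sg W (pw X n) X) (xp W (X := pw X n) (Y := X) (wb e n I')
        (e (I (Fin.last _)))) = (-1 : W.K) ^ ((∑ i, a (I' i)) * a (I (Fin.last _))) •
          xp W (Ψ (wb e n I')) (φ (e (I (Fin.last _)))) := by
      rw [LinearMap.comp_apply, sg_xp hx hy, map_smul]
      congr 1
      exact extOp_tmul (W := W) _ _ _ _
    have e2 : W.tr ((pw X n).prod X) ((extOp W Ψ φ ∘ₗ sg W (pw X n) X)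
        (xp W (X := pw X n) (Y := X) (wb e n I') (e (I (Fin.last _)))) *
        xp W (X := pw X n) (Y := X) (wb e n J') (e (J (Fin.last _)))) =
        ((TP Q (n + 1 + 1) I J : ℚ) : W.K) := by
      rw [e1, smul_mul_assoc, xp_mul _ _ _ _ hφy hx', map_smul, map_smul, tr_xp, h, ← hQ,
        smul_eq_mul, smul_eq_mul]
      have e3 : TP Q (n + 1 + 1) I J = TP Q (n + 1) I' J' * Q (I (Fin.last _)) (J (Fin.last _)) := by
        rw [TP_apply, TP_apply, Fin.prod_univ_castSucc]
      rw [e3, Rat.cast_mul]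
      by_cases hp : ((∑ i, a (I' i)) + ∑ i, a (J' i)) % 2 = 0
      · have e4 : (-1 : W.K) ^ ((∑ i, a (I' i)) * a (I (Fin.last _))) *
            (-1 : W.K) ^ (a (I (Fin.last _)) * ∑ i, a (J' i)) = 1 := by
          rw [← pow_add, mul_comm (a (I (Fin.last _))), ← add_mul]
          exact (Nat.even_iff.2 hp).mul_right _ |>.neg_one_pow
        rw [← mul_assoc, e4, one_mul]
      · have e4 : W.tr (pw X n) (Ψ (wb e n I') * wb e n J') = 0 :=
          PH.tr_odd (PH.mul hΨx hx') (by omega)
        rw [h] at e4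
        rw [e4]
        ring
    rw [wb_xp, wb_xp]
    exact e2

/-- The tensors of a system are stable under contractions. -/
lemma crd_contr (he : ∀ j, e j ∈ PH W X (a j)) (hpar : par (W.isInternal X) ∈ S.Op X X)
    {φ : Module.End W.K (W.H X)} (hφ : φ ∈ S.Op X X) {Q : Matrix ι ι ℚ}
    (hQ : ∀ i j, ((Q i j : ℚ) : W.K) = W.tr X (φ (e i) * e j)) {m n : ℕ}
    {s : (Fin m → ι) → ℚ} {t : (Fin (m + n) → ι) → ℚ} (hs : s ∈ crd e S m)
    (ht : t ∈ crd e S (m + n)) :
    (fun J => ∑ I, ∑ I', s I * TP Q m I I' * t (Fin.append I' J)) ∈ crd e S n := by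
  intro Z f
  cases m with
  | zero =>
    have h1 := ht Z fun i => f (Fin.cast (zero_add n) i)
    have h2 : cls e f (fun J => ∑ I, ∑ I', s I * TP Q 0 I I' * t (Fin.append I' J)) =
        ((∑ I, s I : ℚ) : W.K) • cls e (fun i => f (Fin.cast (zero_add n) i)) t := by
      have hu : ∀ g : (Fin 0 → ι) → W.H Z, ∑ I, g I = g default := fun g => Fintype.sum_unique g
      have hu' : ∀ g : (Fin 0 → ι) → ℚ, ∑ I, g I = g default := fun g => Fintype.sum_unique g
      rw [cls, cls, sum_append', hu, Finset.smul_sum]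
      refine Finset.sum_congr rfl fun J _ => ?_
      rw [hu', hu', hu', smul_smul]
      have h3 : TP Q 0 (default : Fin 0 → ι) default = 1 := by
        rw [TP_apply, Finset.univ_eq_empty, Finset.prod_empty]
      rw [h3, mul_one, Rat.cast_mul]
      congr 1
      rw [wd_append, wd_zero, one_mul]
      congr 1
      funext i
      congr 1
      ext
      simp
    rw [h2]
    exact Submodule.smul_mem _ _ h1
  | succ m =>
    obtain ⟨Ψ, hΨ, h⟩ := exists_psi e he hpar hφ hQ m
    set F : Fin (m + 1 + n) → ((pw X m).prod Z ⟶ X) :=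
      Fin.append (fun i => fst (pw X m) Z ≫ prj X m i) (fun j => snd (pw X m) Z ≫ f j) with hF
    have hγ := ht ((pw X m).prod Z) F
    have hz := Sys.Op.apply (T := S) (fun _ => le_rfl) hΨ (mem_crd_succ (e := e).1 hs)
    set z := Ψ (cls e (prj X m) s) with hzdef
    have h1 := Sys.Op.apply (T := S) (fun _ => le_rfl) (Sys.Op.corr hγ) hz
    have h2 : W.corr (cls e F t) z =
        cls e f (fun J => ∑ I, ∑ I', s I * TP Q (m + 1) I I' * t (Fin.append I' J)) := by
      have hz0 : z ∈ PH W (pw X m) 0 := S.even hz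
      have e1 : ∀ I' : Fin (m + 1) → ι, W.tr (pw X m) (z * wb e m I') =
          ((∑ I, s I * TP Q (m + 1) I I' : ℚ) : W.K) := by
        intro I'
        rw [hzdef, cls, map_sum, Finset.sum_mul, map_sum, Rat.cast_sum]
        refine Finset.sum_congr rfl fun I _ => ?_
        rw [map_smul, smul_mul_assoc, map_smul, wd_prj, h, smul_eq_mul, Rat.cast_mul]
      have e2 : ∀ (I' : Fin (m + 1) → ι) (J : Fin n → ι),
          W.corr (wd e F (Fin.append I' J)) z =
            ((∑ I, s I * TP Q (m + 1) I I' : ℚ) : W.K) • wd e f J := by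
        intro I' J
        have e3 : wd e F (Fin.append I' J) = xp W (X := pw X m) (wb e m I') (wd e f J) := by
          rw [wd_append, xp, ← wd_prj, wd_map, wd_map]
          simp only [hF, Fin.append_left, Fin.append_right]
        rw [e3, corr_xp _ (wd_PH e he f J) hz0, mul_zero, pow_zero, one_mul,
          ← PH.even_comm hz0, e1]
      have e4 : W.corr (cls e F t) z = ∑ L, (t L : W.K) • W.corr (wd e F L) z := by
        rw [cls]
        have e5 := map_sum (corrL W (pw X m) Z) (fun L => (t L : W.K) • wd e F L) Finset.univ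
        have e6 := congrArg (fun G : W.H (pw X m) →ₗ[W.K] W.H Z => G z) e5
        refine e6.trans ?_
        rw [LinearMap.sum_apply]
        refine Finset.sum_congr rfl fun L _ => ?_
        rw [map_smul, LinearMap.smul_apply]
        rfl
      rw [e4, sum_append', Finset.sum_comm, cls]
      refine Finset.sum_congr rfl fun J _ => ?_
      rw [Finset.sum_comm, Rat.cast_sum, Finset.sum_smul]
      refine Finset.sum_congr rfl fun I' _ => ?_
      rw [e2, smul_smul, ← Rat.cast_mul, mul_comm, Finset.sum_mul]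
    rw [← h2]
    exact h1

end Pool.Agent.Q60.HD
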