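import Pool.Agent.Q60.HD.Seq
import Pool.Agent.Y133.Half.Main

/-!
# The half law with explicit bounds
-/

open CategoryTheory AlgebraicGeometry

universe u v

namespace Pool.Agent.Q60.HD

open Module
open Pool.Agent.H914 Pool.Agent.H914.VarClass Pool.Agent.H914.VarClass.Obj
  Pool.Agent.H914.WeilCohomology Pool.Agent.Y133.Half

variable {k : Type u} [Field k] {𝒱 : VarClass k} {ops : CycleOps 𝒱}
  {W : WeilCohomology.{u, v} ops} {P Q Z Z' P' X : 𝒱.Obj}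

/-- The lower bound for the classes of `T` at one power. -/
theorem lower_at {S T : Sys W} (hST : ∀ X, S.C X ≤ T.C X) {m l' n j : ℕ}
    (hlt : S.C (pw X m) < T.C (pw X m)) (hbot : S.C (pw X m) ≠ ⊥)
    (hX : 0 < finrank W.K (W.H X)) (hn : n = m % 2 + (l' + l' + 1) + 1) {c δ : ℝ} (hc0 : 0 ≤ c)
    (hδ : 0 ≤ δ) (hl : ∀ l ≥ l', c * S.al X l ≤ S.al X (l + 1)) (hj : m + m % 2 + 2 = 2 * j)
    (hc : ((finrank W.K (W.H X) : ℝ) ^ 2) ^ j - δ ≤ c ^ j) :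
    2 * (1 - δ) * S.a (pw X n) ≤ finrank W.K (T.C (pw X n)) := by
  set b := finrank W.K (W.H X) with hb
  have hb1 : (1 : ℝ) ≤ b := by exact_mod_cast hX
  set m₀ := m % 2 with hm₀
  set Y := pw X l' with hY
  set P₀ := pw X m₀ with hP₀
  set P := pw X m with hP
  let φ : P₀.prod (Y.prod Y) ≅ pw X n :=
    prodCongr (Iso.refl _) (pwAdd X l' l') ≪≫ pwAdd X m₀ (l' + l' + 1) ≪≫
      eqToIso (congrArg (pw X) hn.symm)
  let M : ℕ → Submodule W.K (W.H P) := fun n => match n with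
    | 0 => ⊥
    | 1 => S.C P
    | _ + 2 => T.C P
  have hM : ∀ n, ∀ a ∈ S.Op P P, ∀ m ∈ M n, a m ∈ M n := by
    rintro (_ | _ | n) a ha x hx
    · rw [(Submodule.mem_bot _).1 hx, map_zero]; exact Submodule.zero_mem _
    · exact Sys.Op.apply (T := S) (fun _ => le_rfl) ha hx
    · exact Sys.Op.apply hST ha hx
  have hlt' : ∀ n < 2, M n < M (n + 1) := by
    intro n hn
    interval_cases n
    · exact bot_lt_iff_ne_bot.2 hbot
    · exact hlt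
  obtain ⟨g, hg, hs⟩ := S.key_chain hST P (P₀.prod (Y.prod Y)) M hM 2 hlt' le_rfl
  rw [T.finrank_C_iso φ] at hs
  have hdP : finrank W.K (W.H P) = b ^ (m + 1) := finrank_pw _ _
  have hdP₀ : finrank W.K (W.H P₀) = b ^ (m₀ + 1) := finrank_pw _ _
  have hal : S.a (Y.prod Y) = S.al X l' := rfl
  have haP : S.a ((P.prod P₀).prod (Y.prod Y)) = S.al X (l' + j) := by
    rw [S.a_iso (prodCongr (pwAdd X m m₀) (Iso.refl _))]
    exact S.a_pw X (by omega)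
  have hup : S.a (pw X n) ≤ b ^ (m₀ + 1) * S.al X l' := by
    rw [← S.a_iso φ, ← hdP₀]
    exact S.a_le _ _
  have hpow := ratio_pow hc0 hl j l' le_rfl
  have h7 : (0 : ℝ) ≤ S.al X l' := Nat.cast_nonneg _
  have hr : ∀ i ∈ Finset.range 2, ((b : ℝ) ^ (m₀ + 1) - δ) * S.al X l' ≤
      S.r P (g i) (P₀.prod (Y.prod Y)) := by
    intro i hi
    obtain ⟨h1, h2, h3⟩ := hg i (Finset.mem_range.1 hi)
    have h4 := S.r_lower (P₀ := P₀) h1 h2 h3 Y
    rw [haP, hdP, hdP₀, hal] at h4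
    have h5 : (S.al X (l' + j) : ℝ) + (b : ℝ) ^ (m₀ + 1) * S.al X l' ≤
        S.r P (g i) (P₀.prod (Y.prod Y)) + (b : ℝ) ^ (m + 1) * (b : ℝ) ^ (m₀ + 1) *
          S.al X l' := by exact_mod_cast h4
    have h6 : (b : ℝ) ^ (m + 1) * (b : ℝ) ^ (m₀ + 1) = ((b : ℝ) ^ 2) ^ j := by
      rw [← pow_add, ← pow_mul]
      congr 1
      omega
    rw [h6] at h5
    nlinarith [mul_le_mul_of_nonneg_right hc h7]
  have hsum : (2 : ℝ) * (((b : ℝ) ^ (m₀ + 1) - δ) * S.al X l') ≤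
      finrank W.K (T.C (pw X n)) := by
    calc (2 : ℝ) * (((b : ℝ) ^ (m₀ + 1) - δ) * S.al X l')
        = ∑ i ∈ Finset.range 2, ((b : ℝ) ^ (m₀ + 1) - δ) * S.al X l' := by
          rw [Finset.sum_const, Finset.card_range, nsmul_eq_mul]; norm_num
      _ ≤ ∑ i ∈ Finset.range 2, (S.r P (g i) (P₀.prod (Y.prod Y)) : ℝ) :=
          Finset.sum_le_sum hr
      _ ≤ _ := by exact_mod_cast hs
  rcases le_or_gt (1 - δ) 0 with h | h
  · have h8 : 2 * (1 - δ) * (S.a (pw X n) : ℝ) ≤ 0 :=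
      mul_nonpos_of_nonpos_of_nonneg (by linarith) (Nat.cast_nonneg _)
    exact h8.trans (Nat.cast_nonneg _)
  · refine le_trans ?_ hsum
    have hup' : (S.a (pw X n) : ℝ) ≤ (b : ℝ) ^ (m₀ + 1) * S.al X l' := by exact_mod_cast hup
    have h8 : 2 * (1 - δ) * (S.a (pw X n) : ℝ) ≤ 2 * (1 - δ) * ((b : ℝ) ^ (m₀ + 1) * S.al X l') :=
      mul_le_mul_of_nonneg_left hup' (by linarith)
    refine h8.trans ?_
    have h10 : (1 : ℝ) ≤ (b : ℝ) ^ (m₀ + 1) := one_le_pow₀ hb1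
    have h9 : (1 - δ) * (b : ℝ) ^ (m₀ + 1) ≤ (b : ℝ) ^ (m₀ + 1) - δ := by nlinarith
    nlinarith [mul_le_mul_of_nonneg_right h9 h7]

lemma al_zero_le (S : Sys W) (X : 𝒱.Obj) : S.al X 0 ≤ finrank W.K (W.H X) ^ 2 := by
  have h1 := S.a_add_num ((pw X 0).prod (pw X 0))
  have h2 : finrank W.K (S.C ((pw X 0).prod (pw X 0))) ≤
      finrank W.K (W.H ((pw X 0).prod (pw X 0))) := Submodule.finrank_le _
  have h3 : finrank W.K (W.H ((pw X 0).prod (pw X 0))) = finrank W.K (W.H X) ^ 2 := by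
    rw [Pool.Agent.Y133.Half.finrank_prod, sq]
    rfl
  rw [Sys.al]
  omega

/-- The classes of `T` outnumber the rank of `S` if the ratio is small. -/
theorem small_at {S T : Sys W} (hpos : ∀ l, 0 < S.al X l) {m₀ l' n : ℕ} (hm₀ : m₀ ≤ 1)
    (hn : n = m₀ + (l' + l' + 1) + 1) (hX : 0 < finrank W.K (W.H X)) {c ε : ℝ} (hc0 : 0 ≤ c)
    (hε : 0 ≤ ε)
    (h : (S.al X (l' + 1) : ℝ) ≤ c * S.al X l')
    (hc : (finrank W.K (W.H X) : ℝ) ^ 2 * (c ^ l' * ((l' : ℝ) + 2) ^ finrank W.K (W.H X) ^ 2) ≤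
      ε * ((finrank W.K (W.H X) : ℝ) ^ 2) ^ l') :
    (S.a (pw X n) : ℝ) ≤ ε * finrank W.K (T.C (pw X n)) := by
  set b := finrank W.K (W.H X) with hb
  set Y := pw X l' with hY
  set P₀ := pw X m₀ with hP₀
  let φ : P₀.prod (Y.prod Y) ≅ pw X n :=
    prodCongr (Iso.refl _) (pwAdd X l' l') ≪≫ pwAdd X m₀ (l' + l' + 1) ≪≫
      eqToIso (congrArg (pw X) hn.symm)
  have hup : S.a (pw X n) ≤ b ^ (m₀ + 1) * S.al X l' := by
    rw [← S.a_iso φ, ← finrank_pw]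
    exact S.a_le _ _
  have hlow : finrank W.K (T.C (Y.prod Y)) ≤ finrank W.K (T.C (pw X n)) := by
    rw [← T.finrank_C_iso φ]
    apply T.finrank_C_le (snd P₀ (Y.prod Y))
    intro x y hxy
    have h2 : ∀ m, (1 : W.H (pw X m)) ≠ 0 := by
      intro m
      have : Nontrivial (W.H (pw X m)) := by
        apply Module.nontrivial_of_finrank_pos (R := W.K)
        rw [finrank_pw]
        exact Nat.pow_pos hX
      exact one_ne_zero
    have h3 : xp W (1 : W.H P₀) (x - y) = 0 := by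
      rw [xp, map_one, one_mul, map_sub, hxy, sub_self]
    exact sub_eq_zero.1 (xp_eq_zero_left (h2 m₀) h3)
  have hg := T.growth X l'
  have hg' : (b : ℝ) ^ (2 * (l' + 1)) ≤
      finrank W.K (T.C (Y.prod Y)) * ((l' + 2 : ℕ) : ℝ) ^ (b ^ 2) := by exact_mod_cast hg
  have h5 : (S.al X l' : ℝ) ≤ c ^ l' * S.al X 0 := geom_le hc0 fun i hi =>
    ratio_back hpos (S.al_convex X) h hi.le
  have h50 : (S.al X 0 : ℝ) ≤ (b : ℝ) ^ 2 := by exact_mod_cast al_zero_le S X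
  have hb1 : (1 : ℝ) ≤ b := by exact_mod_cast hX
  have h6 : (S.a (pw X n) : ℝ) ≤ (b : ℝ) ^ 2 * (c ^ l' * (b : ℝ) ^ 2) := by
    have h7 : (S.a (pw X n) : ℝ) ≤ (b : ℝ) ^ (m₀ + 1) * S.al X l' := by exact_mod_cast hup
    refine h7.trans (mul_le_mul ?_ ?_ (Nat.cast_nonneg _) (by positivity))
    · exact pow_le_pow_right₀ hb1 (by omega)
    · exact h5.trans (mul_le_mul_of_nonneg_left h50 (pow_nonneg hc0 _))
  have h8 : (0 : ℝ) < ((l' + 2 : ℕ) : ℝ) ^ (b ^ 2) := by positivity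
  have h9 : ((l' + 2 : ℕ) : ℝ) = (l' : ℝ) + 2 := by push_cast; ring
  have h10 : (S.a (pw X n) : ℝ) * ((l' + 2 : ℕ) : ℝ) ^ (b ^ 2) ≤
      (ε * finrank W.K (T.C (Y.prod Y))) * ((l' + 2 : ℕ) : ℝ) ^ (b ^ 2) := by
    calc (S.a (pw X n) : ℝ) * ((l' + 2 : ℕ) : ℝ) ^ (b ^ 2)
        ≤ ((b : ℝ) ^ 2 * (c ^ l' * (b : ℝ) ^ 2)) * ((l' + 2 : ℕ) : ℝ) ^ (b ^ 2) :=
          mul_le_mul_of_nonneg_right h6 h8.le
      _ = (b : ℝ) ^ 2 * ((b : ℝ) ^ 2 * (c ^ l' * ((l' : ℝ) + 2) ^ (b ^ 2))) := by rw [h9]; ring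
      _ ≤ (b : ℝ) ^ 2 * (ε * ((b : ℝ) ^ 2) ^ l') := mul_le_mul_of_nonneg_left hc (by positivity)
      _ = ε * (b : ℝ) ^ (2 * (l' + 1)) := by ring
      _ ≤ ε * (finrank W.K (T.C (Y.prod Y)) * ((l' + 2 : ℕ) : ℝ) ^ (b ^ 2)) :=
          mul_le_mul_of_nonneg_left hg' hε
      _ = _ := by ring
  have h11 := le_of_mul_le_mul_right h10 h8
  refine h11.trans (mul_le_mul_of_nonneg_left ?_ hε)
  exact_mod_cast hlow

lemma pow_bound {N : ℕ} (hN : 8 ≤ N) : 74 * N ^ 2 ≤ 2 ^ (3 * N) := by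
  rw [pow_mul]
  induction N, hN using Nat.le_induction with
  | base => norm_num
  | succ N hN ih =>
    have h1 : ((2 : ℕ) ^ 3) ^ (N + 1) = 8 * (2 ^ 3) ^ N := by rw [pow_succ (2 ^ 3) N]; ring
    rw [h1]
    nlinarith

/-- **The half law with explicit bounds.** -/
theorem uniform_half {S T : Sys W} (hST : ∀ X, S.C X ≤ T.C X) (hX : 0 < finrank W.K (W.H X))
    (hpos : ∀ l, 0 < S.al X l) (hbot : ∀ m, S.C (pw X m) ≠ ⊥) {N : ℕ} (hN : 8 ≤ N)
    (hN2 : N % 2 = 0) (hlt : ∀ m, N ≤ m + 1 → S.C (pw X m) < T.C (pw X m)) {ε : ℝ} (hε : 0 < ε)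
    {n : ℕ} (hn : (2 * (finrank W.K (W.H X) : ℝ)) ^ (3 * N) / ε ^ 2 ≤ n + 1) :
    (S.a (pw X n) : ℝ) ≤ (1 / 2 + ε) * finrank W.K (T.C (pw X n)) := by
  set b := finrank W.K (W.H X) with hb
  have hb1 : (1 : ℝ) ≤ b := by exact_mod_cast hX
  have hb0 : (0 : ℝ) < b := by linarith
  have hT0 : (0 : ℝ) ≤ finrank W.K (T.C (pw X n)) := Nat.cast_nonneg _
  rcases le_or_gt (1 / 2) ε with hε2 | hε2
  · have h1 := S.a_add_num (pw X n)
    have h2 : finrank W.K (S.C (pw X n)) ≤ finrank W.K (T.C (pw X n)) :=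
      Submodule.finrank_mono (hST _)
    have h3 : (S.a (pw X n) : ℝ) ≤ finrank W.K (T.C (pw X n)) := by
      exact_mod_cast (show S.a (pw X n) ≤ finrank W.K (T.C (pw X n)) by omega)
    nlinarith
  have hN0 : (0 : ℝ) < N := by exact_mod_cast (by omega : 0 < N)
  have hN8 : (8 : ℝ) ≤ N := by exact_mod_cast hN
  have hbN : (1 : ℝ) ≤ (b : ℝ) ^ N := one_le_pow₀ hb1
  -- the parameters
  set η : ℝ := ε / (N * (b : ℝ) ^ N) with hη
  have hη0 : 0 < η := by positivity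
  have hη1 : η ≤ 1 := by
    rw [hη, div_le_one (by positivity)]
    nlinarith
  have hbb : (1 : ℝ) ≤ (b : ℝ) ^ 2 := one_le_pow₀ hb1
  set c : ℝ := (b : ℝ) ^ 2 - η with hc
  have hc0 : 0 ≤ c := by rw [hc]; linarith
  set x : ℝ := ε / (N * (b : ℝ) ^ (N + 2)) with hx
  have hx0 : 0 < x := by positivity
  have hcx : c = (b : ℝ) ^ 2 * (1 - x) := by
    rw [hc, hη, hx, pow_add]
    field_simp
  have hx1 : x ≤ 1 := by
    by_contra h
    push Not at h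
    have h1 : c < 0 := by rw [hcx]; exact mul_neg_of_pos_of_neg (by positivity) (by linarith)
    linarith
  -- the size of `n`
  have hsize : 36 * (N : ℝ) ^ 2 * (b : ℝ) ^ (2 * N + 8) / ε ^ 2 * 2 + 4 ≤ n + 1 := by
    refine le_trans ?_ hn
    have h1 : (74 : ℝ) * (N : ℝ) ^ 2 ≤ 2 ^ (3 * N) := by exact_mod_cast pow_bound hN
    have h2 : (b : ℝ) ^ (2 * N + 8) ≤ (b : ℝ) ^ (3 * N) := pow_le_pow_right₀ hb1 (by omega)
    have h3 : (74 : ℝ) * (N : ℝ) ^ 2 * (b : ℝ) ^ (2 * N + 8) ≤ (2 * (b : ℝ)) ^ (3 * N) := by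
      rw [mul_pow]
      exact mul_le_mul h1 h2 (by positivity) (by positivity)
    have h4 : (4 : ℝ) * ε ^ 2 ≤ 2 * (N : ℝ) ^ 2 * (b : ℝ) ^ (2 * N + 8) := by
      have h5 : (1 : ℝ) ≤ (b : ℝ) ^ (2 * N + 8) := one_le_pow₀ hb1
      have h6 : (4 : ℝ) * ε ^ 2 ≤ 1 := by nlinarith
      have h7 : (1 : ℝ) ≤ (N : ℝ) ^ 2 := by nlinarith
      nlinarith [mul_le_mul h7 h5 zero_le_one (by positivity)]
    have h5 : 36 * (N : ℝ) ^ 2 * (b : ℝ) ^ (2 * N + 8) / ε ^ 2 * 2 + 4 =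
        (36 * (N : ℝ) ^ 2 * (b : ℝ) ^ (2 * N + 8) * 2 + 4 * ε ^ 2) / ε ^ 2 := by
      field_simp
    rw [h5, div_le_div_iff_of_pos_right (by positivity)]
    linarith
  obtain ⟨l', hl'⟩ : ∃ l', n = n % 2 + (l' + l' + 1) + 1 := by
    refine ⟨(n - n % 2 - 2) / 2, ?_⟩
    have h1 : (4 : ℝ) ≤ n + 1 := by
      refine le_trans ?_ hsize
      have : 0 ≤ 36 * (N : ℝ) ^ 2 * (b : ℝ) ^ (2 * N + 8) / ε ^ 2 * 2 := by positivity
      linarith
    have h2 : 4 ≤ n + 1 := by exact_mod_cast h1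
    omega
  have hl1 : 36 * (N : ℝ) ^ 2 * (b : ℝ) ^ (2 * N + 8) / ε ^ 2 ≤ l' := by
    have h1 : n + 1 ≤ 2 * l' + 4 := by omega
    have h2 : (n : ℝ) + 1 ≤ 2 * l' + 4 := by exact_mod_cast h1
    linarith
  rcases le_or_gt (c * S.al X l') (S.al X (l' + 1)) with h | h
  · -- the ratios are close to `b ^ 2`
    have hl : ∀ l ≥ l', c * S.al X l ≤ S.al X (l + 1) := fun l hl =>
      ratio_mono hpos (S.al_convex X) h hl
    obtain ⟨m, hm1, hm2, hm3⟩ : ∃ m, N ≤ m + 1 ∧ m % 2 = n % 2 ∧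
        m + m % 2 + 2 = 2 * (N / 2 + 1) := by
      rcases Nat.mod_two_eq_zero_or_one n with h0 | h0
      · exact ⟨N, by omega, by omega, by omega⟩
      · exact ⟨N - 1, by omega, by omega, by omega⟩
    have hpow : ((b : ℝ) ^ 2) ^ (N / 2 + 1) - ε ≤ c ^ (N / 2 + 1) := by
      have h1 := bern (B := (b : ℝ) ^ 2) (η := η) (by positivity) (by linarith)
        (j := N / 2 + 1) (by omega)
      refine le_trans ?_ h1
      have h2 : ((b : ℝ) ^ 2) ^ (N / 2 + 1 - 1) = (b : ℝ) ^ N := by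
        rw [← pow_mul]; congr 1; omega
      rw [h2]
      have h3 : ((N / 2 + 1 : ℕ) : ℝ) * η * (b : ℝ) ^ N ≤ ε := by
        have h4 : ((N / 2 + 1 : ℕ) : ℝ) ≤ N := by exact_mod_cast (by omega : N / 2 + 1 ≤ N)
        have h5 : (N : ℝ) * η * (b : ℝ) ^ N = ε := by
          rw [hη]; field_simp
        calc ((N / 2 + 1 : ℕ) : ℝ) * η * (b : ℝ) ^ N ≤ (N : ℝ) * η * (b : ℝ) ^ N := by
              gcongr
          _ = ε := h5
      linarith
    have hnm : n = m % 2 + (l' + l' + 1) + 1 := by rw [hm2]; exact hl'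
    have key := lower_at hST (hlt m hm1) (hbot m) hX hnm hc0 hε.le hl hm3 hpow
    have ha0 : (0 : ℝ) ≤ S.a (pw X n) := Nat.cast_nonneg _
    have h1 : (1 : ℝ) ≤ (1 / 2 + ε) * (2 * (1 - ε)) := by
      have h2 : 0 ≤ ε * (1 - 2 * ε) := mul_nonneg hε.le (by linarith)
      linarith
    calc (S.a (pw X n) : ℝ) = 1 * S.a (pw X n) := (one_mul _).symm
      _ ≤ ((1 / 2 + ε) * (2 * (1 - ε))) * S.a (pw X n) := mul_le_mul_of_nonneg_right h1 ha0
      _ = (1 / 2 + ε) * (2 * (1 - ε) * S.a (pw X n)) := by ring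
      _ ≤ _ := mul_le_mul_of_nonneg_left key (by linarith)
  · -- the ratios are small
    have hl10 : (1 : ℝ) ≤ l' := by
      refine le_trans ?_ hl1
      rw [le_div_iff₀ (by positivity)]
      have h5 : (1 : ℝ) ≤ (b : ℝ) ^ (2 * N + 8) := one_le_pow₀ hb1
      have h6 : ε ^ 2 ≤ 1 := by nlinarith
      have h7 : (1 : ℝ) ≤ (N : ℝ) ^ 2 := by nlinarith
      nlinarith [mul_le_mul h7 h5 zero_le_one (by positivity)]
    have h1 : 6 * (b : ℝ) ^ 2 ≤ x * Real.sqrt l' := by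
      have h2 : 6 * (N : ℝ) * (b : ℝ) ^ (N + 4) / ε ≤ Real.sqrt l' := by
        apply Real.le_sqrt_of_sq_le
        refine le_trans (le_of_eq ?_) hl1
        have h3 : (N + 4) * 2 = 2 * N + 8 := by ring
        rw [div_pow, mul_pow, mul_pow, ← pow_mul, h3]
        norm_num
      calc 6 * (b : ℝ) ^ 2 = x * (6 * (N : ℝ) * (b : ℝ) ^ (N + 4) / ε) := by
            rw [hx]
            field_simp
            ring
        _ ≤ _ := mul_le_mul_of_nonneg_left h2 hx0.le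
    have h2 : 4 * (b : ℝ) + 2 / ε ≤ x * l' := by
      have h3 : 4 * (N : ℝ) * (b : ℝ) ^ (N + 3) / ε ^ 2 ≤ l' := by
        refine le_trans ?_ hl1
        rw [div_le_div_iff_of_pos_right (by positivity)]
        have h5 : (b : ℝ) ^ (N + 3) ≤ (b : ℝ) ^ (2 * N + 8) := pow_le_pow_right₀ hb1 (by omega)
        have h6 : (4 : ℝ) * N ≤ 36 * (N : ℝ) ^ 2 := by nlinarith
        exact mul_le_mul h6 h5 (by positivity) (by positivity)
      have h4 : x * (4 * (N : ℝ) * (b : ℝ) ^ (N + 3) / ε ^ 2) = 4 * b / ε := by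
        rw [hx, pow_add, pow_add]
        field_simp
      have h5 : 4 * (b : ℝ) + 2 / ε ≤ 4 * b / ε := by
        rw [← sub_nonneg]
        have h6 : 4 * (b : ℝ) / ε - (4 * b + 2 / ε) = (4 * b * (1 - ε) - 2) / ε := by
          field_simp
          ring
        rw [h6]
        apply div_nonneg _ hε.le
        nlinarith
      rw [← h4] at h5
      exact h5.trans (mul_le_mul_of_nonneg_left h3 hx0.le)
    have hl'1 : 1 ≤ l' := by exact_mod_cast hl10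
    have h3 := exp_beats (b := b) hX hx0 hx1 hε hl'1 h1 h2
    have h4 : (b : ℝ) ^ 2 * (c ^ l' * ((l' : ℝ) + 2) ^ b ^ 2) ≤ ε * ((b : ℝ) ^ 2) ^ l' := by
      rw [hcx, mul_pow]
      calc (b : ℝ) ^ 2 * (((b : ℝ) ^ 2) ^ l' * (1 - x) ^ l' * ((l' : ℝ) + 2) ^ b ^ 2)
          = ((b : ℝ) ^ 2 * ((1 - x) ^ l' * ((l' : ℝ) + 2) ^ b ^ 2)) * ((b : ℝ) ^ 2) ^ l' := by ring
        _ ≤ _ := mul_le_mul_of_nonneg_right h3 (by positivity)
    have key := small_at (T := T) hpos (m₀ := n % 2) (by omega) hl' hX hc0 hε.le h.le h4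
    refine key.trans (mul_le_mul_of_nonneg_right (by linarith) hT0)

end Pool.Agent.Q60.HD
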