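import Pool.Agent.Q60.HD.Bnd
import Pool.Agent.Q60.HD.Uni

/-!
# The half law for Hodge classes with bounds which only depend on the Betti number
-/

open CategoryTheory AlgebraicGeometry TensorProduct

universe u v

namespace Pool.Agent.Q60.HD

open Module
open Pool.Agent.H914 Pool.Agent.H914.VarClass Pool.Agent.H914.VarClass.Obj
  Pool.Agent.H914.WeilCohomology
open Pool.Agent.Y133.Half Pool.Agent.Y121.AH

variable {k : Type u} [Field k] {𝒱 : VarClass k} {ops : CycleOps 𝒱}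

lemma Sys_pow {W : WeilCohomology.{u, v} ops} {X : 𝒱.Obj} (S : Sys W) {c : W.H X}
    (hc : c ∈ S.C X) (n : ℕ) : c ^ n ∈ S.C X := by
  induction n with
  | zero => rw [pow_zero]; exact S.one X
  | succ n ih => rw [pow_succ]; exact S.mul ih hc

variable {T : HodgeTheory ops} {X : 𝒱.Obj}

/-- A class of degree one. -/
lemma exists_tr_sys (S : Sys T.W) (hS : ∀ Z : 𝒱.Obj, ∀ z : Z.Cycles, Z.IsCyc 1 z →
    T.W.cl Z z ∈ S.C Z) [Nontrivial (T.W.H X)] : ∃ l ∈ S.C X, T.W.tr X l = 1 := by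
  obtain ⟨E, hE⟩ := T.dec.polar X
  have h1 : (1 : T.W.H X) ∈ T.W.gr X (2 * 0) := T.W.one_mem X
  have h2 : IsHodge T X 0 (1 : T.W.H X) := by
    rw [← T.W.cl_fund X]; exact IsHodge.cl X.V.fundCycle_mem
  have h3 : T.W.cl X E ^ (X.dim - 2 * 0 + 1) * (1 : T.W.H X) = 0 := by
    have h4 := cl_pow_mem (W := T.W) hE.1 (X.dim - 2 * 0 + 1)
    rw [T.W.gr_eq_bot X _ (by omega)] at h4
    rw [(Submodule.mem_bot _).1 h4, zero_mul]
  obtain ⟨r, hr, h4⟩ := hE.2.2 0 (by omega) 1 h1 h2.2 h3 one_ne_zero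
  have h5 : T.W.cl X E ^ (X.dim - 2 * 0) * 1 * 1 ∈ S.C X := by
    rw [mul_one, mul_one]
    exact Sys_pow S (hS X E hE.1) _
  rw [pow_zero, one_mul] at h4
  have hr0 : (r : T.W.K) ≠ 0 := by exact_mod_cast hr.ne'
  refine ⟨(r : T.W.K)⁻¹ • _, Submodule.smul_mem _ _ h5, ?_⟩
  rw [map_smul, h4, smul_eq_mul, inv_mul_cancel₀ hr0]

lemma bound_even {b : ℕ} (hb : 0 < b) : 8 ≤ (2 * b) ^ (3 * b ^ 2) ∧ (2 * b) ^ (3 * b ^ 2) % 2 = 0 := by
  have h1 : 3 ≤ 3 * b ^ 2 := by nlinarith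
  constructor
  · calc 8 = 2 ^ 3 := by norm_num
      _ ≤ (2 * b) ^ 3 := Nat.pow_le_pow_left (by omega) 3
      _ ≤ _ := Nat.pow_le_pow_right (by omega) h1
  · obtain ⟨m, hm⟩ : ∃ m, 3 * b ^ 2 = m + 1 := ⟨3 * b ^ 2 - 1, by omega⟩
    rw [hm, pow_succ, ← mul_assoc, mul_comm _ 2, mul_assoc]
    exact Nat.mul_mod_right 2 _

/-- **The uniform half law.** -/
theorem uniform (hR : RealH T X) {φ : Module.End T.W.K (T.W.H X)} (hφ : IsPol T X φ)
    (S : Sys T.W) (hS : ∀ Z, S.C Z ≤ (hodgeSys T).C Z)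
    (hS1 : ∀ Z : 𝒱.Obj, ∀ z : Z.Cycles, Z.IsCyc 1 z → T.W.cl Z z ∈ S.C Z) {ε : ℝ} (hε : 0 < ε)
    {n : ℕ} (hn : (2 * (finrank T.W.K (T.W.H X) : ℝ)) ^
      (3 * (2 * finrank T.W.K (T.W.H X)) ^ (3 * finrank T.W.K (T.W.H X) ^ 2)) / ε ^ 2 ≤ n + 1)
    (h : (1 / 2 + ε) * finrank T.W.K ((hodgeSys T).C (pw X n)) < S.a (pw X n)) (m : ℕ) :
    (hodgeSys T).C (pw X m) ≤ S.C (pw X m) := by
  by_cases hX : Nontrivial (T.W.H X)
  · have hb : 0 < finrank T.W.K (T.W.H X) := Module.finrank_pos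
    obtain ⟨l, hl, hl1⟩ := exists_tr_sys (X := X) S hS1
    obtain ⟨h8, h2⟩ := bound_even hb
    set N := (2 * finrank T.W.K (T.W.H X)) ^ (3 * finrank T.W.K (T.W.H X) ^ 2) with hN
    have hpos : ∀ n, 0 < S.al X n := by
      intro n
      obtain ⟨m, hm, hm1⟩ := S.exists_lam hl hl1 n
      refine S.a_pos (Sys.xp_mem_C S hm hm) ?_
      rw [tr_xp, hm1, mul_one]
    have hbot : ∀ m, S.C (pw X m) ≠ ⊥ := by
      intro m hm
      obtain ⟨y, hy, hy1⟩ := S.exists_lam hl hl1 m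
      rw [hm, Submodule.mem_bot] at hy
      exact ne_zero_of_tr hy1 hy
    by_contra hcon
    have hlt : ∀ m, N ≤ m + 1 → S.C (pw X m) < (hodgeSys T).C (pw X m) := by
      intro m' hm'
      refine lt_of_le_of_ne (hS _) fun heq => hcon ?_
      exact one_power hR hφ S hS (N := m') hm' heq.ge m
    have key := uniform_half hS hb hpos hbot h8 h2 hlt hε hn
    exact absurd key (not_le.2 h)
  · intro c _
    have h1 : finrank T.W.K (T.W.H X) = 0 := by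
      by_contra h2
      exact hX (Module.nontrivial_of_finrank_pos (R := T.W.K) (Nat.pos_of_ne_zero h2))
    have h2 : finrank T.W.K (T.W.H (pw X m)) = 0 := by
      rw [finrank_pw, h1, zero_pow (Nat.succ_ne_zero m)]
    have h3 : Subsingleton (T.W.H (pw X m)) := Module.finrank_zero_iff.1 h2
    rw [Subsingleton.elim c 0]
    exact Submodule.zero_mem _

end Pool.Agent.Q60.HD
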