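import Mathlib

/-!
# Positive definite complex matrices are Gram matrices
-/

namespace Pool.Agent.Q60.HD

open Matrix

open scoped MatrixOrder Matrix.Norms.L2Operator ComplexOrder

variable {ι : Type} [Fintype ι] [DecidableEq ι]

lemma hermitian_of_real {M : Matrix ι ι ℂ}
    (h : ∀ x : ι → ℂ, ∃ r : ℝ, star x ⬝ᵥ (M *ᵥ x) = (r : ℂ)) : M.IsHermitian := by
  have hre : ∀ x : ι → ℂ, (star x ⬝ᵥ (M *ᵥ x)).im = 0 := fun x => by
    obtain ⟨r, hr⟩ := h x
    rw [hr, Complex.ofReal_im]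
  have hb : ∀ (a b : ι) (s t : ℂ), star (Pi.single a s + Pi.single b t : ι → ℂ) ⬝ᵥ
      (M *ᵥ (Pi.single a s + Pi.single b t)) = star s * M a a * s + star s * M a b * t +
        star t * M b a * s + star t * M b b * t := by
    intro a b s t
    have h1 : ∀ (c : ι) (u : ℂ), M *ᵥ (Pi.single c u) = fun i => M i c * u := by
      intro c u
      funext i
      rw [Matrix.mulVec, dotProduct_single]
    have h2 : ∀ (c : ι) (u : ℂ) (v : ι → ℂ), star (Pi.single c u : ι → ℂ) ⬝ᵥ v = star u * v c := by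
      intro c u v
      rw [← Pi.single_star, single_dotProduct]
    rw [star_add, add_dotProduct, Matrix.mulVec_add, dotProduct_add, dotProduct_add, h1, h1, h2, h2,
      h2, h2]
    ring
  ext a b
  rw [Matrix.conjTranspose_apply]
  have e0 := hre (Pi.single a 1 + Pi.single b 0)
  have e1 := hre (Pi.single a 0 + Pi.single b 1)
  have e2 := hre (Pi.single a 1 + Pi.single b 1)
  have e3 := hre (Pi.single a 1 + Pi.single b Complex.I)
  rw [hb] at e0 e1 e2 e3
  apply Complex.ext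
  · simp [Complex.add_im, Complex.mul_im, Complex.mul_re] at e0 e1 e2 e3 ⊢
    linarith
  · simp [Complex.add_im, Complex.mul_im, Complex.mul_re] at e0 e1 e2 e3 ⊢
    linarith

/-- A matrix with positive values is a Gram matrix. -/
theorem exists_gram {M : Matrix ι ι ℂ}
    (h : ∀ x : ι → ℂ, x ≠ 0 → ∃ r : ℝ, 0 < r ∧ star x ⬝ᵥ (M *ᵥ x) = (r : ℂ)) :
    ∃ B : Matrix ι ι ℂ, B.det ≠ 0 ∧ M = B.conjTranspose * B := by
  have h1 : M.IsHermitian := hermitian_of_real fun x => by
    by_cases hx : x = 0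
    · exact ⟨0, by rw [hx]; simp⟩
    · obtain ⟨r, -, hr⟩ := h x hx
      exact ⟨r, hr⟩
  have h2 : M.PosSemidef := Matrix.PosSemidef.of_dotProduct_mulVec_nonneg h1 fun x => by
    by_cases hx : x = 0
    · rw [hx]; simp
    · obtain ⟨r, hr0, hr⟩ := h x hx
      rw [hr]
      exact Complex.zero_le_real.2 hr0.le
  obtain ⟨B, hB⟩ := CStarAlgebra.nonneg_iff_eq_star_mul_self.mp h2.nonneg
  refine ⟨B, ?_, hB⟩
  intro hdet
  obtain ⟨v, hv, hBv⟩ := Matrix.exists_mulVec_eq_zero_iff.2 hdet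
  obtain ⟨r, hr0, hr⟩ := h v hv
  rw [hB, Matrix.star_eq_conjTranspose, ← Matrix.mulVec_mulVec, hBv, Matrix.mulVec_zero,
    dotProduct_zero] at hr
  have h3 : (r : ℂ) = 0 := hr.symm
  rw [Complex.ofReal_eq_zero] at h3
  exact hr0.ne' h3

end Pool.Agent.Q60.HD
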