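import Pool.Agent.Q60.HD.Ctr

/-!
# Effective finite determination
-/

open CategoryTheory AlgebraicGeometry TensorProduct

set_option linter.unusedSectionVars false

universe u v

namespace Pool.Agent.Q60.HD

open Module Matrix
open Pool.Agent.H914 Pool.Agent.H914.VarClass Pool.Agent.H914.VarClass.Obj
  Pool.Agent.H914.WeilCohomology
open Pool.Agent.Y133.Half Pool.Agent.Y121.AH Pool.Agent.Q60.ED

variable {k : Type u} [Field k] {𝒱 : VarClass k} {ops : CycleOps 𝒱} {T : HodgeTheory ops}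
  {X Y Z : 𝒱.Obj}

lemma exists_tensor {ι : Type} [Fintype ι] [DecidableEq ι] (e : Basis ι T.W.K (T.W.H X)) {n : ℕ}
    (c : T.W.H (pw X n)) : ∃ t : (Fin (n + 1) → ι) → ℚ, cls e (prj X n) t = c := by
  refine ⟨fun J => rt T ((wb e n).repr c J), ?_⟩
  rw [cls]
  conv_rhs => rw [← (wb e n).sum_repr c]
  refine Finset.sum_congr rfl fun J _ => ?_
  rw [rt_spec, wd_prj]

/-- **Effective finite determination.** A system of classes which is contained in the Hodge classes,
and contains the Hodge classes on the powers `X ^ m` with `m ≤ 2 D`, contains the Hodge classes on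
all powers of `X`. -/
theorem effective (hR : RealH T X) {φ : Module.End T.W.K (T.W.H X)} (hφ : IsPol T X φ)
    (S : Sys T.W) (hS : ∀ Z, S.C Z ≤ (hodgeSys T).C Z) {D : ℕ}
    (hD : (2 * X.dim + 1) ^ (finrank T.W.K (T.W.H X) ^ 2) *
      (finrank T.W.K (T.W.H X) ^ 2 + 1) ^ (finrank T.W.K (T.W.H X) ^ 2 + 1) ≤ D)
    (h : ∀ n, n + 1 ≤ 2 * D → (hodgeSys T).C (pw X n) ≤ S.C (pw X n)) (n : ℕ) :
    (hodgeSys T).C (pw X n) ≤ S.C (pw X n) := by
  classical
  obtain ⟨e, he⟩ := exists_hbasis T.W X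
  choose a ha using he
  have hD1 : 1 ≤ D := by
    refine le_trans ?_ hD
    exact Nat.one_le_iff_ne_zero.2 (Nat.mul_ne_zero (pow_ne_zero _ (by omega))
      (pow_ne_zero _ (by omega)))
  have h2 : (hodgeSys T).C (X.prod X) ≤ S.C (X.prod X) := h 1 (by omega)
  have hOp : (hodgeSys T).Op X X ≤ S.Op X X := Submodule.map_mono h2
  have hpar : par (T.W.isInternal X) ∈ S.Op X X := hOp par_mem
  have hφS : φ ∈ S.Op X X := hOp hφ.mem
  have hQ : ∀ i j, ((Qm e φ i j : ℚ) : T.W.K) = T.W.tr X (φ (e i) * e j) := fun i j => rt_spec _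
  have hTS : ∀ m ≤ 2 * D, (phs e hR hφ).T m ≤ crd e S m := by
    intro m hm t ht
    rw [T_eq_crd] at ht
    cases m with
    | zero => exact mem_crd_zero e t
    | succ m =>
      rw [mem_crd_succ] at ht ⊢
      exact h m hm ht
  let P : PSys (phs e hR hφ).Q :=
    { S := crd e S
      one := mem_crd_zero e _
      mul := fun hs ht => crd_mul e hs ht
      perm := fun σ _ ht => crd_perm e ha hpar σ ht
      contr := fun hs ht => crd_contr e ha hpar hφS hQ hs ht
      cas := hTS 2 (by omega) PHS.Om_mem }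
  have hle : ∀ m, P.S m ≤ (phs e hR hφ).T m := by
    intro m
    rw [T_eq_crd]
    intro t ht Z f
    exact hS _ (ht Z f)
  have hcard : Fintype.card (Fin (finrank T.W.K (T.W.H X))) = finrank T.W.K (T.W.H X) :=
    Fintype.card_fin _
  have key := P.eq_top hle (D := D) (by rw [hcard]; exact hD) hTS (n + 1)
  intro c hc
  obtain ⟨t, ht⟩ := exists_tensor e c
  rw [← ht] at hc ⊢
  rw [← mem_crd_succ, ← T_eq_crd e hR hφ] at hc
  exact (mem_crd_succ (e := e)).1 (key hc)

end Pool.Agent.Q60.HD
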