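import Pool.Agent.Q60.HD.Ten

/-!
# Systems of classes in coordinates: parities and permutations
-/

open CategoryTheory AlgebraicGeometry TensorProduct

set_option linter.unusedSectionVars false

universe u v

namespace Pool.Agent.Q60.HD

open Module Matrix
open Pool.Agent.H914 Pool.Agent.H914.VarClass Pool.Agent.H914.VarClass.Obj
  Pool.Agent.H914.WeilCohomology
open Pool.Agent.Y133.Half Pool.Agent.Q60.ED

variable {k : Type u} [Field k] {𝒱 : VarClass k} {ops : CycleOps 𝒱}
  {W : WeilCohomology.{u, v} ops} {X Y Z : 𝒱.Obj} {ι : Type} [Fintype ι] [DecidableEq ι]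
  (e : Basis ι W.K (W.H X)) {a : ι → ℕ}

lemma sum_append' {j i : ℕ} {M : Type*} [AddCommMonoid M] (F : (Fin (j + i) → ι) → M) :
    ∑ L, F L = ∑ I : Fin j → ι, ∑ J : Fin i → ι, F (Fin.append I J) := by
  rw [← Equiv.sum_comp (Fin.appendEquiv j i), Fintype.sum_prod_type]
  rfl

lemma wd_append {m n : ℕ} (f : Fin (m + n) → (Z ⟶ X)) (I : Fin m → ι) (J : Fin n → ι) :
    wd e f (Fin.append I J) = wd e (fun i => f (Fin.castAdd n i)) I *
      wd e (fun j => f (Fin.natAdd m j)) J := by
  have h1 : (fun i => W.map (f i) (e (Fin.append I J i))) =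
      Fin.append (fun i => W.map (f (Fin.castAdd n i)) (e (I i)))
        (fun j => W.map (f (Fin.natAdd m j)) (e (J j))) := by
    funext i
    refine Fin.addCases (fun i => ?_) (fun j => ?_) i
    · rw [Fin.append_left, Fin.append_left]
    · rw [Fin.append_right, Fin.append_right]
  rw [wd, h1, List.ofFn_fin_append, List.prod_append]
  rfl

lemma wd_PH (he : ∀ j, e j ∈ PH W X (a j)) {n : ℕ} (f : Fin n → (Z ⟶ X)) (w : Fin n → ι) :
    wd e f w ∈ PH W Z (∑ i, a (w i)) := by
  induction n with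
  | zero =>
    rw [wd_zero, Finset.univ_eq_empty, Finset.sum_empty]
    exact PH.of' rfl (W.one_mem Z)
  | succ n ih =>
    rw [wd_succ, Fin.sum_univ_succ]
    exact PH.mul (PH.map _ (he _)) (ih _ _)

lemma wb_PH (he : ∀ j, e j ∈ PH W X (a j)) (n : ℕ) (w : Fin (n + 1) → ι) :
    wb e n w ∈ PH W (pw X n) (∑ i, a (w i)) := by
  rw [← wd_prj]
  exact wd_PH e he _ _

variable {S : Sys W}

/-- The parity operator at one of the factors. -/
lemma par_op (he : ∀ j, e j ∈ PH W X (a j)) (hpar : par (W.isInternal X) ∈ S.Op X X) (n : ℕ)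
    (i : Fin (n + 1)) : ∃ P ∈ S.Op (pw X n) (pw X n), ∀ w : Fin (n + 1) → ι,
      P (wb e n w) = (-1 : W.K) ^ (a (w i)) • wb e n w := by
  induction n with
  | zero =>
    refine ⟨par (W.isInternal X), hpar, fun w => ?_⟩
    have hi : i = 0 := by omega
    rw [hi, wb_zero]
    exact PH.par (he _)
  | succ n ih =>
    refine Fin.lastCases ?_ (fun j => ?_) i
    · refine ⟨extOp W LinearMap.id (par (W.isInternal X)), Sys.Op.ext Sys.Op.id hpar,
        fun w => ?_⟩
      have h1 := extOp_tmul (W := W) (Y := pw X n) (Z := X) LinearMap.id (par (W.isInternal X))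
        (wb e n fun i => w i.castSucc) (e (w (Fin.last _)))
      rw [wb_succ]
      refine h1.trans ?_
      rw [PH.par (he _), map_smul, mul_smul_comm]
      rfl
    · obtain ⟨P, hP, hPw⟩ := ih j
      refine ⟨extOp W P LinearMap.id, Sys.Op.ext hP Sys.Op.id, fun w => ?_⟩
      have h1 := extOp_tmul (W := W) (Y := pw X n) (Z := X) P LinearMap.id
        (wb e n fun i => w i.castSucc) (e (w (Fin.last _)))
      rw [wb_succ]
      refine h1.trans ?_
      rw [hPw, map_smul, smul_mul_assoc]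
      rfl

/-- The multipliers of the tensors of a system. -/
noncomputable def mlt (S : Sys W) (n : ℕ) : Subalgebra ℚ ((Fin n → ι) → ℚ) where
  carrier := {ψ | ∀ t ∈ crd e S n, ψ * t ∈ crd e S n}
  mul_mem' ha hb t ht := by rw [mul_assoc]; exact ha _ (hb _ ht)
  add_mem' ha hb t ht := by rw [add_mul]; exact Submodule.add_mem _ (ha _ ht) (hb _ ht)
  algebraMap_mem' q t ht := by
    have h1 : algebraMap ℚ ((Fin n → ι) → ℚ) q * t = q • t := by
      rw [← Algebra.smul_def]
    rw [h1]
    exact Submodule.smul_mem _ _ ht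

lemma mem_mlt {n : ℕ} {ψ : (Fin n → ι) → ℚ} :
    ψ ∈ mlt e S n ↔ ∀ t ∈ crd e S n, ψ * t ∈ crd e S n := Iff.rfl

/-- The sign of the parity of one letter. -/
def chi (a : ι → ℕ) {n : ℕ} (i : Fin n) : (Fin n → ι) → ℚ := fun w => (-1) ^ a (w i)

lemma chi_mem (he : ∀ j, e j ∈ PH W X (a j)) (hpar : par (W.isInternal X) ∈ S.Op X X) {n : ℕ}
    (i : Fin n) : chi a i ∈ mlt e S n := by
  cases n with
  | zero => exact i.elim0
  | succ n =>
    intro t ht
    rw [mem_crd_succ] at ht ⊢
    obtain ⟨P, hP, hPw⟩ := par_op e he hpar n i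
    have h1 := Sys.Op.apply (T := S) (fun _ => le_rfl) hP ht
    have h2 : P (cls e (prj X n) t) = cls e (prj X n) (chi a i * t) := by
      rw [cls, map_sum, cls]
      refine Finset.sum_congr rfl fun w _ => ?_
      rw [map_smul, wd_prj, hPw, smul_smul, Pi.mul_apply, chi]
      congr 1
      push_cast
      ring
    rwa [h2] at h1

lemma sign_mem (he : ∀ j, e j ∈ PH W X (a j)) (hpar : par (W.isInternal X) ∈ S.Op X X) {n : ℕ}
    (i j : Fin n) : (fun w : Fin n → ι => (-1 : ℚ) ^ (a (w i) * a (w j))) ∈ mlt e S n := by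
  have h1 : (fun w : Fin n → ι => (-1 : ℚ) ^ (a (w i) * a (w j))) =
      (2⁻¹ : ℚ) • (1 + chi a i + chi a j - chi a i * chi a j) := by
    funext w
    simp only [Pi.smul_apply, Pi.sub_apply, Pi.add_apply, Pi.one_apply, Pi.mul_apply, chi,
      smul_eq_mul]
    rcases Nat.even_or_odd (a (w i)) with h | h <;> rcases Nat.even_or_odd (a (w j)) with h' | h'
    · rw [h.neg_one_pow, h'.neg_one_pow, (h.mul_right _).neg_one_pow]; norm_num
    · rw [h.neg_one_pow, h'.neg_one_pow, (h.mul_right _).neg_one_pow]; norm_num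
    · rw [h.neg_one_pow, h'.neg_one_pow, (h'.mul_left _).neg_one_pow]; norm_num
    · rw [h.neg_one_pow, h'.neg_one_pow, (h.mul h').neg_one_pow]; norm_num
  rw [h1]
  have h2 := chi_mem e he hpar i
  have h3 := chi_mem e he hpar j
  exact Subalgebra.smul_mem _ (Subalgebra.sub_mem _ (Subalgebra.add_mem _ (Subalgebra.add_mem _
    (Subalgebra.one_mem _) h2) h3) (Subalgebra.mul_mem _ h2 h3)) _

/-- Products of classes in a different order. -/
lemma list_perm (he : ∀ j, e j ∈ PH W X (a j)) (hpar : par (W.isInternal X) ∈ S.Op X X) {n : ℕ}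
    {l l' : List (Fin n)} (h : l.Perm l') : ∃ s ∈ mlt e S n, ∀ (Z : 𝒱.Obj) (x : Fin n → W.H Z)
      (w : Fin n → ι), (∀ i, x i ∈ PH W Z (a (w i))) →
        (l.map x).prod = ((s w : ℚ) : W.K) • (l'.map x).prod := by
  induction h with
  | nil => exact ⟨1, Subalgebra.one_mem _, fun Z x w _ => by simp⟩
  | cons i _ ih =>
    obtain ⟨s, hs, h⟩ := ih
    refine ⟨s, hs, fun Z x w hx => ?_⟩
    rw [List.map_cons, List.map_cons, List.prod_cons, List.prod_cons, h Z x w hx, mul_smul_comm]
  | swap i j l =>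
    refine ⟨_, sign_mem e he hpar j i, fun Z x w hx => ?_⟩
    rw [List.map_cons, List.map_cons, List.map_cons, List.map_cons, List.prod_cons,
      List.prod_cons, List.prod_cons, List.prod_cons, ← mul_assoc, PH.comm (hx j) (hx i),
      smul_mul_assoc, mul_assoc]
    push_cast
    rfl
  | trans _ _ ih1 ih2 =>
    obtain ⟨s, hs, h⟩ := ih1
    obtain ⟨s', hs', h'⟩ := ih2
    refine ⟨s * s', Subalgebra.mul_mem _ hs hs', fun Z x w hx => ?_⟩
    rw [h Z x w hx, h' Z x w hx, smul_smul, Pi.mul_apply, Rat.cast_mul]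

/-- The tensors of a system are stable under permutations of the factors. -/
lemma crd_perm (he : ∀ j, e j ∈ PH W X (a j)) (hpar : par (W.isInternal X) ∈ S.Op X X) {n : ℕ}
    (σ : Equiv.Perm (Fin n)) {t : (Fin n → ι) → ℚ} (ht : t ∈ crd e S n) :
    (fun J => t (J ∘ σ)) ∈ crd e S n := by
  have hp : (List.ofFn σ.symm).Perm (List.ofFn (id : Fin n → Fin n)) :=
    Equiv.Perm.ofFn_comp_perm σ.symm id
  obtain ⟨s, hs, h⟩ := list_perm e he hpar hp
  intro Z f
  have h1 : cls e f (fun J => t (J ∘ σ)) = cls e (f ∘ σ) (s * t) := by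
    rw [cls, cls, ← (Equiv.arrowCongr σ (Equiv.refl ι)).sum_comp]
    refine Finset.sum_congr rfl fun v _ => ?_
    have e1 : (Equiv.arrowCongr σ (Equiv.refl ι)) v = v ∘ σ.symm := rfl
    have e2 : (v ∘ σ.symm) ∘ σ = v := by funext i; simp
    have e3 := h Z (fun i => W.map (f (σ i)) (e (v i))) v fun i => PH.map _ (he _)
    rw [List.map_ofFn, List.map_ofFn] at e3
    have e4 : wd e f (v ∘ σ.symm) =
        (List.ofFn ((fun i => W.map (f (σ i)) (e (v i))) ∘ σ.symm)).prod := by
      rw [wd]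
      congr 2
      funext i
      simp
    rw [e1]
    rw [e2, e4, e3, smul_smul, Pi.mul_apply, Rat.cast_mul, mul_comm]
    rfl
  rw [h1]
  exact (hs t ht) _ _

/-- The tensors of a system are stable under products. -/
lemma crd_mul {m n : ℕ} {s : (Fin m → ι) → ℚ} {t : (Fin n → ι) → ℚ} (hs : s ∈ crd e S m)
    (ht : t ∈ crd e S n) : tmul s t ∈ crd e S (m + n) := by
  intro Z f
  have h1 : cls e f (tmul s t) = cls e (fun i => f (Fin.castAdd n i)) s *
      cls e (fun j => f (Fin.natAdd m j)) t := by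
    rw [cls, cls, cls, Finset.sum_mul_sum, sum_append']
    refine Finset.sum_congr rfl fun I _ => Finset.sum_congr rfl fun J _ => ?_
    rw [wd_append, smul_mul_smul_comm]
    congr 1
    simp only [ED.tmul, Fin.append_left, Fin.append_right, Rat.cast_mul]
  rw [h1]
  exact S.mul (hs _ _) (ht _ _)

end Pool.Agent.Q60.HD
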