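import Pool.Agent.Q60.HD.Zop

/-!
# Rational operators which commute with the action, and polarisations
-/

open CategoryTheory AlgebraicGeometry TensorProduct

universe u

namespace Pool.Agent.Q60.HD

open Module
open Pool.Agent.H914 Pool.Agent.H914.VarClass Pool.Agent.H914.VarClass.Obj
  Pool.Agent.H914.WeilCohomology
open Pool.Agent.Y133.Half Pool.Agent.Y121.AH

variable {k : Type u} [Field k] {𝒱 : VarClass k} {ops : CycleOps 𝒱} {T : HodgeTheory ops}
  {X Y : 𝒱.Obj}

lemma em_ind {p : (CW T).H X → Prop} (h0 : p 0) (hadd : ∀ a b, p a → p b → p (a + b))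
    (h : ∀ (l : ℂ) (c : T.W.H X), p ((show (CW T).K from l) • em T.W ℂ c)) (x : (CW T).H X) :
    p x := by
  have key : ∀ x : ℂ ⊗[T.W.K] T.W.H X, p (show (CW T).H X from x) := by
    intro x
    induction x using TensorProduct.induction_on with
    | zero => exact h0
    | add x y hx hy => exact hadd _ _ hx hy
    | tmul l c =>
      have h1 := h l c
      have h2 : (show (CW T).K from l) • em T.W ℂ c = (l ⊗ₜ[T.W.K] c : ℂ ⊗[T.W.K] T.W.H X) := by
        change l • ((1 : ℂ) ⊗ₜ[T.W.K] c) = _
        rw [TensorProduct.smul_tmul', smul_eq_mul, mul_one]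
      rw [h2] at h1
      exact h1
  exact key x

lemma lin_ext {V : Type*} [AddCommGroup V] [Module (CW T).K V] {F G : (CW T).H X →ₗ[(CW T).K] V}
    (h : ∀ c : T.W.H X, F (em T.W ℂ c) = G (em T.W ℂ c)) : F = G := by
  apply LinearMap.ext
  intro x
  refine em_ind (p := fun x => F x = G x) ?_ ?_ ?_ x
  · rw [map_zero, map_zero]
  · intro a b ha hb; rw [map_add, map_add, ha, hb]
  · intro l c; rw [map_smul, map_smul, h]

/-- The complex linear extension of an operator. -/
noncomputable def bop (u : Module.End T.W.K (T.W.H X)) : Module.End (CW T).K ((CW T).H X) :=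
  (u.baseChange ℂ : ℂ ⊗[T.W.K] T.W.H X →ₗ[ℂ] ℂ ⊗[T.W.K] T.W.H X)

lemma bop_em (u : Module.End T.W.K (T.W.H X)) (c : T.W.H X) :
    bop u (em T.W ℂ c) = em T.W ℂ (u c) :=
  LinearMap.baseChange_tmul _ _ _

lemma corr_em (c : T.W.H (X.prod X)) : (CW T).corr (em T.W ℂ c) = bop (T.W.corr c) :=
  corrOp_base (L := ℂ) (T.W.map (fst X X)) (T.W.push (snd X X)) c

lemma zop_corr {z : ℂ} (hz : z ≠ 0) (d : (CW T).H (X.prod X)) (x : (CW T).H X) :
    zop T z X ((CW T).corr d x) = (CW T).corr (zop T z (X.prod X) d) (zop T z X x) := by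
  rw [corr_apply, zop_push, zop_mul hz, zop_map, corr_apply]

/-- **Rational operators which commute with the action are given by Hodge classes.** -/
theorem op_of_comm {u : Module.End T.W.K (T.W.H X)}
    (h : ∀ z : ℂ, z ≠ 0 → ∀ c : T.W.H X, zop T z X (em T.W ℂ (u c)) =
      bop u (zop T z X (em T.W ℂ c))) : u ∈ (hodgeSys T).Op X X := by
  obtain ⟨c, hc⟩ := (corrEquiv T.W X).surjective u
  have hcu : T.W.corr c = u := hc
  rw [Sys.mem_Op]
  refine ⟨c, mem_sys_of_fix fun z hz => ?_, hcu⟩
  rw [← sub_eq_zero]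
  apply corr_inj
  have h1 : ∀ x, zop T z X (bop u x) = bop u (zop T z X x) := by
    intro x
    have h2 : zop T z X ∘ₗ bop u = bop u ∘ₗ zop T z X := by
      apply lin_ext
      intro c
      rw [LinearMap.comp_apply, LinearMap.comp_apply, bop_em, h z hz]
    exact congrArg (fun F : (CW T).H X →ₗ[(CW T).K] (CW T).H X => F x) h2
  have h2 : (CW T).corr (zop T z (X.prod X) (em T.W ℂ c)) = (CW T).corr (em T.W ℂ c) := by
    apply LinearMap.ext
    intro x
    have h3 : x = zop T z X (zop T z⁻¹ X x) := by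
      rw [zop_zop, mul_inv_cancel₀ hz, zop_one]
    rw [h3, ← zop_corr hz, corr_em, hcu, h1]
  have h3 : (corrL (CW T) X X) (zop T z (X.prod X) (em T.W ℂ c) - em T.W ℂ c) = 0 := by
    rw [map_sub, sub_eq_zero]
    exact h2
  exact h3

lemma bop_par {i : ℕ} {y : (CW T).H X} (hy : y ∈ (CW T).gr X i) :
    bop (par (T.W.isInternal X)) y = ((-1) ^ i : (CW T).K) • y := by
  have key : ∀ y ∈ (T.W.gr X i).baseChange ℂ,
      bop (par (T.W.isInternal X)) (show (CW T).H X from y) =
        ((-1) ^ i : (CW T).K) • (show (CW T).H X from y) := by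
    intro y hy
    refine base_induction (P := fun y => bop (par (T.W.isInternal X)) (show (CW T).H X from y) =
        ((-1) ^ i : (CW T).K) • (show (CW T).H X from y)) ?_ ?_ ?_ hy
    · exact (map_zero _).trans (smul_zero _).symm
    · intro x y hx hy
      have h1 : bop (par (T.W.isInternal X)) ((show (CW T).H X from x) + (show (CW T).H X from y)) =
        ((-1) ^ i : (CW T).K) • ((show (CW T).H X from x) + (show (CW T).H X from y)) := by
        rw [map_add, hx, hy, smul_add]
      exact h1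
    · intro l a ha
      have h1 : (show (CW T).H X from l ⊗ₜ[T.W.K] a) = (show (CW T).K from l) • em T.W ℂ a := by
        change _ = l • ((1 : ℂ) ⊗ₜ[T.W.K] a)
        rw [TensorProduct.smul_tmul', smul_eq_mul, mul_one]
      rw [h1, map_smul, bop_em, PH.par (PH.of ha), em_smul]
      have h2 : ex T.W ℂ ((-1) ^ i) = ((-1) ^ i : (CW T).K) := by
        change algebraMap T.W.K ℂ ((-1) ^ i) = (-1 : ℂ) ^ i
        rw [map_pow, map_neg, map_one]
      rw [h2, smul_comm]
  exact key y hy

/-- The parity operator is given by a Hodge class. -/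
lemma par_mem : par (T.W.isInternal X) ∈ (hodgeSys T).Op X X := by
  apply op_of_comm
  intro z hz c
  refine gr_induction (T.W.isInternal X) (p := fun c =>
    zop T z X (em T.W ℂ (par (T.W.isInternal X) c)) =
      bop (par (T.W.isInternal X)) (zop T z X (em T.W ℂ c))) ?_ ?_ c
  · intro i a ha
    have h2 : ex T.W ℂ ((-1) ^ i) = ((-1) ^ i : (CW T).K) := by
      change algebraMap T.W.K ℂ ((-1) ^ i) = (-1 : ℂ) ^ i
      rw [map_pow, map_neg, map_one]
    rw [bop_par (zop_gr z ha), PH.par (PH.of ha), em_smul, map_smul, h2]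
  · intro a b ha hb
    rw [map_add, em_add, map_add, ha, hb, em_add, map_add, map_add]

lemma tr_zop (z : ℂ) (a : (CW T).H X) : (CW T).tr X (zop T z X a) = (CW T).tr X a := by
  by_cases h1 : (1 : (CW T).H X) = 0
  · have h2 : ∀ x : (CW T).H X, x = 0 := fun x => by rw [← one_mul x, h1, zero_mul]
    rw [h2 a, h2 (zop T z X 0)]
  have h2 : IsHodge T X 0 (1 : T.W.H X) := by
    rw [← T.W.cl_fund X]; exact IsHodge.cl X.V.fundCycle_mem
  have h3 : zop T z X (1 : (CW T).H X) = 1 := zop_hodge z h2
  have h4 := (CW T).push_snd (X := X) (Y := X) a 1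
  have h5 := (CW T).push_snd (X := X) (Y := X) (zop T z X a) 1
  rw [map_one, mul_one] at h4 h5
  have h6 := zop_push (T := T) z (snd X X) ((CW T).map (fst X X) a)
  rw [h4, zop_map, h5, map_smul, h3] at h6
  have h7 : ((CW T).tr X a - (CW T).tr X (zop T z X a)) • (1 : (CW T).H X) = 0 := by
    rw [sub_smul, h6, sub_self]
  have h8 := (smul_eq_zero.1 h7).resolve_right h1
  exact (sub_eq_zero.1 h8).symm

end Pool.Agent.Q60.HD
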