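import Pool.Agent.Q60.HD.PolH
import Pool.Agent.Q60.HD.Gram
import Pool.Agent.Q60.ED.ThmC

/-!
# The polarised Hodge structure on the cohomology in coordinates
-/

open CategoryTheory AlgebraicGeometry TensorProduct

set_option linter.unusedSectionVars false

universe u

namespace Pool.Agent.Q60.HD

open Module Matrix
open Pool.Agent.H914 Pool.Agent.H914.VarClass Pool.Agent.H914.VarClass.Obj
  Pool.Agent.H914.WeilCohomology
open Pool.Agent.Y133.Half Pool.Agent.Y121.AH Pool.Agent.Q60.ED

variable {k : Type u} [Field k] {𝒱 : VarClass k} {ops : CycleOps 𝒱} {T : HodgeTheory ops}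
  {X Y : 𝒱.Obj}

/-- The rational number equal to a coefficient. -/
noncomputable def rt (T : HodgeTheory ops) (r : T.W.K) : ℚ := (T.rat r).choose

lemma rt_spec (r : T.W.K) : ((rt T r : ℚ) : T.W.K) = r := (T.rat r).choose_spec

lemma rt_cast (r : T.W.K) : ((rt T r : ℚ) : ℂ) = algebraMap T.W.K ℂ r := by
  conv_rhs => rw [← rt_spec r]
  rw [map_ratCast]

lemma em_tr' (c : T.W.H X) : (CW T).tr X (em T.W ℂ c) = ex T.W ℂ (T.W.tr X c) := by
  have h : formBase ℂ (T.W.tr X) ((1 : ℂ) ⊗ₜ[T.W.K] c) = algebraMap T.W.K ℂ (T.W.tr X c) := by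
    rw [formBase_tmul, one_mul]
  exact h

variable {ι : Type} [Fintype ι] [DecidableEq ι] (e : Basis ι T.W.K (T.W.H X))

/-- The matrix of an operator. -/
noncomputable def mt (F : Module.End (CW T).K ((CW T).H X)) : Matrix ι ι ℂ :=
  LinearMap.toMatrix (eC e) (eC e) (show (ℂ ⊗[T.W.K] T.W.H X) →ₗ[ℂ] (ℂ ⊗[T.W.K] T.W.H X) from F)

lemma mt_comp (F G H : Module.End (CW T).K ((CW T).H X)) (h : ∀ x, F (G x) = H x) :
    mt e F * mt e G = mt e H := by
  rw [mt, mt, ← LinearMap.toMatrix_comp, mt]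
  congr 1
  apply LinearMap.ext
  intro x
  exact h x

lemma mt_id (F : Module.End (CW T).K ((CW T).H X)) (h : ∀ x, F x = x) : mt e F = 1 := by
  rw [mt, ← LinearMap.toMatrix_id (eC e)]
  congr 1
  apply LinearMap.ext
  intro x
  exact h x

lemma mt_smul (c : ℂ) (F : Module.End (CW T).K ((CW T).H X)) :
    mt e ((show (CW T).K from c) • F) = c • mt e F :=
  map_smul (LinearMap.toMatrix (eC e) (eC e)) c
    (show (ℂ ⊗[T.W.K] T.W.H X) →ₗ[ℂ] (ℂ ⊗[T.W.K] T.W.H X) from F)

lemma mt_add (F G : Module.End (CW T).K ((CW T).H X)) : mt e (F + G) = mt e F + mt e G :=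
  map_add (LinearMap.toMatrix (eC e) (eC e))
    (show (ℂ ⊗[T.W.K] T.W.H X) →ₗ[ℂ] (ℂ ⊗[T.W.K] T.W.H X) from F)
    (show (ℂ ⊗[T.W.K] T.W.H X) →ₗ[ℂ] (ℂ ⊗[T.W.K] T.W.H X) from G)

lemma mt_zero : mt e (0 : Module.End (CW T).K ((CW T).H X)) = 0 :=
  map_zero (LinearMap.toMatrix (eC e) (eC e))

lemma mt_sum (s : Finset ℕ) (F : ℕ → Module.End (CW T).K ((CW T).H X)) :
    mt e (∑ w ∈ s, F w) = ∑ w ∈ s, mt e (F w) := by
  classical
  induction s using Finset.induction_on with
  | empty => rw [Finset.sum_empty, Finset.sum_empty, mt_zero]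
  | insert a s ha ih => rw [Finset.sum_insert ha, Finset.sum_insert ha, mt_add, ih]

/-- The projection to the parts with `q - p = w - d`. -/
noncomputable def prE (T : HodgeTheory ops) (X : 𝒱.Obj) (w : ℕ) :
    Module.End (CW T).K ((CW T).H X) :=
  dia (isInternal T X) fun r => if r.2 - r.1 + X.dim = (w : ℤ) then 1 else 0

lemma prE_pq (w : ℕ) {p q : ℤ} {x : (CW T).H X} (hx : x ∈ T.pq X p q) :
    prE T X w x = if q - p + X.dim = (w : ℤ) then x else 0 := by
  rw [prE, dia_apply (isInternal T X) _ (i := (p, q)) hx]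
  split_ifs with h
  · exact one_smul (CW T).K x
  · exact zero_smul (CW T).K x

lemma coch_mt (hR : RealH T X) {z : ℂ} (hz : z ≠ 0) :
    coch X.dim (fun w => mt e (prE T X w)) z = mt e (zop T z X) := by
  have h1 : (show (CW T).K from (z ^ X.dim)⁻¹) • ∑ w ∈ Finset.range (2 * X.dim + 1),
      (show (CW T).K from z ^ w) • prE T X w = zop T z X := by
    apply pq_ext T
    intro p q x hx
    by_cases hx0 : x = 0
    · rw [hx0, map_zero, map_zero]
    obtain ⟨h1, h2, h3, h4⟩ := hR.range p q x hx hx0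
    obtain ⟨w, hw⟩ : ∃ w : ℕ, q - p + X.dim = (w : ℤ) := ⟨(q - p + X.dim).toNat, by omega⟩
    rw [LinearMap.smul_apply, LinearMap.sum_apply, Finset.sum_eq_single w]
    · rw [LinearMap.smul_apply, prE_pq w hx, if_pos hw, smul_smul, zop_pq z hx]
      congr 1
      have h5 : (z ^ X.dim)⁻¹ * z ^ w = z ^ (q - p) := by
        have h6 : q - p = -(X.dim : ℤ) + w := by omega
        rw [h6, zpow_add₀ hz, _root_.zpow_neg, zpow_natCast, zpow_natCast]
      exact h5
    · intro w' _ hw'
      rw [LinearMap.smul_apply, prE_pq w' hx, if_neg, smul_zero]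
      intro h
      apply hw'
      have : (w' : ℤ) = w := by rw [← h, hw]
      exact_mod_cast this
    · intro h
      exfalso
      apply h
      rw [Finset.mem_range]
      omega
  refine Eq.trans ?_ (congrArg (mt e) h1)
  refine Eq.trans ?_ (mt_smul e ((z ^ X.dim)⁻¹) _).symm
  rw [coch, mt_sum]
  congr 1
  exact Finset.sum_congr rfl fun w _ => (mt_smul e (z ^ w) _).symm

variable (φ : Module.End T.W.K (T.W.H X))

/-- The polarisation on the cohomology with complex coefficients. -/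
noncomputable def BF : (ℂ ⊗[T.W.K] T.W.H X) →ₗ[ℂ] (ℂ ⊗[T.W.K] T.W.H X) →ₗ[ℂ] ℂ :=
  LinearMap.mk₂ ℂ (fun x y => (show ℂ from (CW T).tr X
      (bop φ (show (CW T).H X from x) * (show (CW T).H X from y))))
    (fun x x' y => by
      have h : (CW T).tr X (bop φ ((show (CW T).H X from x) + (show (CW T).H X from x')) *
          (show (CW T).H X from y)) = (CW T).tr X (bop φ (show (CW T).H X from x) *
          (show (CW T).H X from y)) + (CW T).tr X (bop φ (show (CW T).H X from x') *
          (show (CW T).H X from y)) := by rw [map_add, add_mul, map_add]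
      exact h)
    (fun c x y => by
      have h : (CW T).tr X (bop φ ((show (CW T).K from c) • (show (CW T).H X from x)) *
          (show (CW T).H X from y)) = (show (CW T).K from c) • (CW T).tr X
          (bop φ (show (CW T).H X from x) * (show (CW T).H X from y)) := by
        rw [map_smul, smul_mul_assoc, map_smul]
      exact h)
    (fun x y y' => by
      have h : (CW T).tr X (bop φ (show (CW T).H X from x) * ((show (CW T).H X from y) +
          (show (CW T).H X from y'))) = (CW T).tr X (bop φ (show (CW T).H X from x) *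
          (show (CW T).H X from y)) + (CW T).tr X (bop φ (show (CW T).H X from x) *
          (show (CW T).H X from y')) := by rw [mul_add, map_add]
      exact h)
    (fun c x y => by
      have h : (CW T).tr X (bop φ (show (CW T).H X from x) * ((show (CW T).K from c) •
          (show (CW T).H X from y))) = (show (CW T).K from c) • (CW T).tr X
          (bop φ (show (CW T).H X from x) * (show (CW T).H X from y)) := by
        rw [mul_smul_comm, map_smul]
      exact h)

lemma BF_apply (x y : (CW T).H X) : BF φ x y = (CW T).tr X (bop φ x * y) := rfl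

/-- The matrix of the polarisation. -/
noncomputable def Qm : Matrix ι ι ℚ := Matrix.of fun a b => rt T (T.W.tr X (φ (e a) * e b))

lemma qc_Qm : qc (Qm e φ) = LinearMap.toMatrix₂ (eC e) (eC e) (BF φ) := by
  ext a b
  rw [LinearMap.toMatrix₂_apply, eC_apply, eC_apply]
  have h1 : BF φ (show ℂ ⊗[T.W.K] T.W.H X from em T.W ℂ (e a))
      (show ℂ ⊗[T.W.K] T.W.H X from em T.W ℂ (e b)) =
      algebraMap T.W.K ℂ (T.W.tr X (φ (e a) * e b)) := by
    rw [BF_apply, bop_em, ← em_mul, em_tr']
    rfl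
  refine Eq.trans ?_ h1.symm
  exact rt_cast _

lemma pol_inv {φ : Module.End T.W.K (T.W.H X)} (h : IsPol T X φ) {z : ℂ} (hz : z ≠ 0) :
    (mt e (zop T z X)).transpose * qc (Qm e φ) * mt e (zop T z X) = qc (Qm e φ) := by
  rw [qc_Qm, mt, ← LinearMap.toMatrix₂_compl₁₂]
  congr 1
  apply LinearMap.ext₂
  intro x y
  exact h.inv hz x y

/-- Positivity. -/
lemma pol_pos (hR : RealH T X) {φ : Module.End T.W.K (T.W.H X)} (h : IsPol T X φ)
    {y : ℂ ⊗[T.W.K] T.W.H X} (hy : y ≠ 0) :
    ∃ r : ℝ, 0 < r ∧ BF φ (cjf e y) (zop T Complex.I X y) = (r : ℂ) := by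
  have hy1 : (show (CW T).H X from y) ∈ ⨆ r : ℤ × ℤ, T.pq X r.1 r.2 := by
    rw [iSup_top]; trivial
  rw [Submodule.mem_iSup_iff_exists_finsupp] at hy1
  obtain ⟨f, hf, hsum⟩ := hy1
  have hsum' : y = ∑ i ∈ f.support, (show ℂ ⊗[T.W.K] T.W.H X from f i) := hsum.symm
  have hcf : ∀ r : ℤ × ℤ, (show (CW T).H X from cjf e (f r)) ∈ T.pq X r.2 r.1 := fun r =>
    hR.conj r.1 r.2 _ _ (cjf_cj e (f r)) (hf r)
  -- the values on the components
  have h1 : ∀ r : ℤ × ℤ, r ∈ f.support → ∃ t : ℝ, 0 < t ∧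
      BF φ (cjf e (f r)) (zop T Complex.I X (f r)) = (t : ℂ) := by
    intro r hr
    have hne : (show (CW T).H X from cjf e (f r)) ≠ 0 := by
      intro h0
      have h2 := cjf_cjf e (f r)
      have h3 : cjf e (f r) = 0 := h0
      rw [h3, cjf_zero] at h2
      exact (Finsupp.mem_support_iff.1 hr) h2.symm
    obtain ⟨t, ht, h4⟩ := h.pos r.2 r.1 _ _ (hcf r) (cjf_cj e (f r)).symm hne
    refine ⟨t, ht, ?_⟩
    have h5 : zop T Complex.I X (f r) = (show (CW T).K from Complex.I ^ (r.2 - r.1)) • f r :=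
      zop_pq _ (hf r)
    rw [← h4]
    have h6 : BF φ (cjf e (f r)) (zop T Complex.I X (f r)) =
        Complex.I ^ (r.2 - r.1) • BF φ (cjf e (f r)) (f r) := by
      rw [h5]
      exact map_smul (BF φ (cjf e (f r))) (Complex.I ^ (r.2 - r.1)) _
    rw [h6, smul_eq_mul]
    rfl
  -- the cross terms
  have h2 : ∀ r s : ℤ × ℤ, r ≠ s → BF φ (cjf e (f r)) (zop T Complex.I X (f s)) = 0 := by
    intro r s hrs
    have h5 : zop T Complex.I X (f s) = (show (CW T).K from Complex.I ^ (s.2 - s.1)) • f s :=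
      zop_pq _ (hf s)
    have h6 : BF φ (cjf e (f r)) (zop T Complex.I X (f s)) =
        Complex.I ^ (s.2 - s.1) • BF φ (cjf e (f r)) (f s) := by
      rw [h5]
      exact map_smul (BF φ (cjf e (f r))) (Complex.I ^ (s.2 - s.1)) _
    have h7 : BF φ (cjf e (f r)) (f s) = 0 := by
      refine h.orth r.2 r.1 s.1 s.2 _ (hcf r) _ (hf s) ?_
      intro h8
      apply hrs
      obtain ⟨e1, e2⟩ := Prod.mk.inj h8
      exact Prod.ext e1.symm e2.symm
    rw [h6, h7, smul_zero]
  choose! t ht1 ht2 using h1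
  have h3 : BF φ (cjf e y) (zop T Complex.I X y) = ((∑ r ∈ f.support, t r : ℝ) : ℂ) := by
    have e1 : zop T Complex.I X y = ∑ i ∈ f.support, zop T Complex.I X (f i) := by
      conv_lhs => rw [hsum']
      exact map_sum (zop T Complex.I X) _ _
    have e2 : BF φ (cjf e y) = ∑ r ∈ f.support, BF φ (cjf e (f r)) := by
      conv_lhs => rw [hsum', cjf_sum]
      exact map_sum (BF φ) _ _
    have e3 : (∑ r ∈ f.support, BF φ (cjf e (f r))) (zop T Complex.I X y) =
        ∑ r ∈ f.support, ∑ s ∈ f.support, BF φ (cjf e (f r)) (zop T Complex.I X (f s)) := by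
      refine Eq.trans (LinearMap.sum_apply f.support (fun r => BF φ (cjf e (f r)))
        (zop T Complex.I X y)) ?_
      refine Finset.sum_congr rfl fun r _ => ?_
      rw [e1]
      exact map_sum (BF φ (cjf e (f r))) _ _
    rw [e2, e3, Complex.ofReal_sum]
    refine Finset.sum_congr rfl fun r hr => ?_
    rw [Finset.sum_eq_single r]
    · exact ht2 r hr
    · intro s _ hs; exact h2 r s (Ne.symm hs)
    · intro h; exact absurd hr h
  refine ⟨_, ?_, h3⟩
  have hne : f.support.Nonempty := by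
    by_contra h0
    rw [Finset.not_nonempty_iff_eq_empty] at h0
    apply hy
    rw [hsum', h0, Finset.sum_empty]
  exact Finset.sum_pos ht1 hne

lemma pol_gram (hR : RealH T X) {φ : Module.End T.W.K (T.W.H X)} (h : IsPol T X φ) :
    ∃ B : Matrix ι ι ℂ, B.det ≠ 0 ∧
      qc (Qm e φ) * mt e (zop T Complex.I X) = B.conjTranspose * B := by
  apply exists_gram
  intro x hx
  set y : ℂ ⊗[T.W.K] T.W.H X := (eC e).equivFun.symm x with hy
  have hy0 : y ≠ 0 := by
    intro h0
    apply hx
    have h1 := congrArg (eC e).equivFun h0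
    rw [hy, LinearEquiv.apply_symm_apply, map_zero] at h1
    exact h1
  have hyr : ∀ j, (eC e).repr y j = x j := by
    intro j
    have h1 := congrFun ((eC e).equivFun.apply_symm_apply x) j
    rw [Basis.equivFun_apply] at h1
    exact h1
  obtain ⟨r, hr0, hr⟩ := pol_pos e hR h hy0
  refine ⟨r, hr0, ?_⟩
  rw [← hr]
  have h1 : qc (Qm e φ) * mt e (zop T Complex.I X) = LinearMap.toMatrix₂ (eC e) (eC e)
      ((BF φ).compl₂ (show (ℂ ⊗[T.W.K] T.W.H X) →ₗ[ℂ] (ℂ ⊗[T.W.K] T.W.H X) from
        zop T Complex.I X)) := by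
    rw [qc_Qm, mt]
    exact (LinearMap.toMatrix₂_compl₂ (eC e) (eC e) (eC e) (BF φ) _).symm
  rw [h1]
  have h2 : ∀ u : ℂ ⊗[T.W.K] T.W.H X, BF φ u (zop T Complex.I X y) =
      ((BF φ).compl₂ (show (ℂ ⊗[T.W.K] T.W.H X) →ₗ[ℂ] (ℂ ⊗[T.W.K] T.W.H X) from
        zop T Complex.I X)) u y := fun u => rfl
  rw [h2, ← LinearMap.sum_repr_mul_repr_mul (eC e) (eC e)]
  have h3 : ∀ j, (eC e).repr (cjf e y) j = star (x j) := by
    intro j
    rw [cjf, map_sum, Finsupp.coe_finsetSum, Finset.sum_apply, Finset.sum_eq_single j]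
    · rw [map_smul, Finsupp.smul_apply, Basis.repr_self, Finsupp.single_eq_same, smul_eq_mul,
        mul_one, hyr]
      rfl
    · intro i _ hi
      rw [map_smul, Finsupp.smul_apply, Basis.repr_self, Finsupp.single_eq_of_ne (Ne.symm hi),
        smul_zero]
    · intro h; exact absurd (Finset.mem_univ _) h
  rw [Finsupp.sum_fintype _ _ (fun i => by simp), dotProduct]
  refine Finset.sum_congr rfl fun i _ => ?_
  rw [Finsupp.sum_fintype _ _ (fun j => by simp), Matrix.mulVec, dotProduct, Finset.mul_sum]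
  refine Finset.sum_congr rfl fun j _ => ?_
  rw [LinearMap.toMatrix₂_apply, h3, hyr, Pi.star_apply, smul_eq_mul, smul_eq_mul]
  ring

/-- **The polarised Hodge structure on the cohomology.** -/
noncomputable def phs (hR : RealH T X) {φ : Module.End T.W.K (T.W.H X)} (h : IsPol T X φ) :
    PHS ι where
  d := X.dim
  E w := mt e (prE T X w)
  Q := Qm e φ
  one := by
    rw [coch_mt e hR one_ne_zero]
    exact mt_id e _ zop_one
  mul z z' hz hz' := by
    rw [coch_mt e hR hz, coch_mt e hR hz', coch_mt e hR (mul_ne_zero hz hz')]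
    exact (mt_comp e _ _ _ fun x => zop_zop x).symm
  inv z hz := by
    rw [coch_mt e hR hz]
    exact pol_inv e h hz
  gram := by
    rw [coch_mt e hR Complex.I_ne_zero]
    exact pol_gram e hR h

lemma phs_c (hR : RealH T X) {φ : Module.End T.W.K (T.W.H X)} (h : IsPol T X φ) {z : ℂ}
    (hz : z ≠ 0) : (phs e hR h).c z = mt e (zop T z X) := coch_mt e hR hz

end Pool.Agent.Q60.HD
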