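import Pool.Agent.Q60.HD.Ops

/-!
# Polarised Hodge structures on the cohomology
-/

open CategoryTheory AlgebraicGeometry TensorProduct

universe u

namespace Pool.Agent.Q60.HD

open Module
open Pool.Agent.H914 Pool.Agent.H914.VarClass Pool.Agent.H914.VarClass.Obj
  Pool.Agent.H914.WeilCohomology
open Pool.Agent.Y133.Half Pool.Agent.Y121.AH

variable {k : Type u} [Field k] {𝒱 : VarClass k} {ops : CycleOps 𝒱} {T : HodgeTheory ops}
  {X Y : 𝒱.Obj}

/-- The class `y` is the complex conjugate of `x`. -/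
def Cj (x y : (CW T).H X) : Prop := ∃ (m : ℕ) (l : Fin m → ℂ) (c : Fin m → T.W.H X),
  x = ∑ i, (show (CW T).K from l i) • em T.W ℂ (c i) ∧
    y = ∑ i, (show (CW T).K from starRingEnd ℂ (l i)) • em T.W ℂ (c i)

/-- The types are between `0` and the dimension, and complex conjugation exchanges the types
`(p, q)` and `(q, p)`. -/
structure RealH (T : HodgeTheory ops) (X : 𝒱.Obj) : Prop where
  range : ∀ p q : ℤ, ∀ x ∈ T.pq X p q, x ≠ 0 → 0 ≤ p ∧ p ≤ X.dim ∧ 0 ≤ q ∧ q ≤ X.dim
  conj : ∀ (p q : ℤ) (x y : (CW T).H X), Cj x y → x ∈ T.pq X p q → y ∈ T.pq X q p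

/-- The form `tr (φ x y)` is a polarisation. -/
structure IsPol (T : HodgeTheory ops) (X : 𝒱.Obj) (φ : Module.End T.W.K (T.W.H X)) : Prop where
  orth : ∀ p q r s : ℤ, ∀ x ∈ T.pq X p q, ∀ y ∈ T.pq X r s, (r, s) ≠ (q, p) →
    (CW T).tr X (bop φ x * y) = 0
  pos : ∀ (p q : ℤ) (x y : (CW T).H X), x ∈ T.pq X p q → Cj x y → x ≠ 0 → ∃ t : ℝ, 0 < t ∧
    Complex.I ^ (p - q) * (show ℂ from (CW T).tr X (bop φ x * y)) = (t : ℂ)

variable {φ : Module.End T.W.K (T.W.H X)}

lemma Cj.symm {x y : (CW T).H X} (h : Cj x y) : Cj y x := by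
  obtain ⟨m, l, c, rfl, rfl⟩ := h
  refine ⟨m, fun i => starRingEnd ℂ (l i), c, rfl, ?_⟩
  refine Finset.sum_congr rfl fun i _ => ?_
  congr 1
  exact (Complex.conj_conj (l i)).symm

/-- The polarisation is invariant under the action. -/
lemma IsPol.inv (h : IsPol T X φ) {z : ℂ} (hz : z ≠ 0) (x y : (CW T).H X) :
    (CW T).tr X (bop φ (zop T z X x) * zop T z X y) = (CW T).tr X (bop φ x * y) := by
  refine pq_ind T (p := fun x => (CW T).tr X (bop φ (zop T z X x) * zop T z X y) =
    (CW T).tr X (bop φ x * y)) ?_ ?_ ?_ x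
  · intro p q x hx
    refine pq_ind T (p := fun y => (CW T).tr X (bop φ (zop T z X x) * zop T z X y) =
      (CW T).tr X (bop φ x * y)) ?_ ?_ ?_ y
    · intro r s y hy
      rw [zop_pq z hx, zop_pq z hy, map_smul, smul_mul_smul_comm, map_smul]
      by_cases hrs : (r, s) = (q, p)
      · obtain ⟨rfl, rfl⟩ := Prod.mk.inj hrs
        have h1 : (show (CW T).K from z ^ (r - s)) * (show (CW T).K from z ^ (s - r)) = 1 := by
          have h2 : z ^ (r - s) * z ^ (s - r) = 1 := by
            rw [← zpow_add₀ hz]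
            have : r - s + (s - r) = 0 := by ring
            rw [this, zpow_zero]
          exact h2
        rw [h1, one_smul]
      · rw [h.orth p q r s x hx y hy hrs, smul_zero]
    · intro a b ha hb
      rw [map_add, mul_add, map_add, ha, hb, mul_add, map_add]
    · simp only [map_zero, mul_zero]
  · intro a b ha hb
    rw [map_add, map_add, add_mul, map_add, ha, hb, map_add, add_mul, map_add]
  · simp only [map_zero, zero_mul]

/-- **The polarisation is given by Hodge classes.** -/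
theorem IsPol.mem (h : IsPol T X φ) : φ ∈ (hodgeSys T).Op X X := by
  apply op_of_comm
  intro z hz c
  apply (CW T).tr_ext
  intro y
  have h1 : y = zop T z X (zop T z⁻¹ X y) := by rw [zop_zop, mul_inv_cancel₀ hz, zop_one]
  rw [h1, h.inv hz, ← zop_mul hz, tr_zop, bop_em]

section Coord

variable {ι : Type} [Fintype ι] [DecidableEq ι] (e : Basis ι T.W.K (T.W.H X))

/-- The complex basis. -/
noncomputable def eC : Basis ι ℂ (ℂ ⊗[T.W.K] T.W.H X) := e.baseChange ℂ

lemma eC_apply (j : ι) : eC e j = (1 : ℂ) ⊗ₜ[T.W.K] e j := Basis.baseChange_apply ℂ e j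

/-- The complex conjugation. -/
noncomputable def cjf (x : ℂ ⊗[T.W.K] T.W.H X) : ℂ ⊗[T.W.K] T.W.H X :=
  ∑ j, starRingEnd ℂ ((eC e).repr x j) • eC e j

lemma cjf_add (x y : ℂ ⊗[T.W.K] T.W.H X) : cjf e (x + y) = cjf e x + cjf e y := by
  simp only [cjf, map_add, Finsupp.add_apply, add_smul, Finset.sum_add_distrib]

lemma cjf_zero : cjf e (0 : ℂ ⊗[T.W.K] T.W.H X) = 0 := by
  simp [cjf]

lemma cjf_sum {α : Type*} (s : Finset α) (f : α → ℂ ⊗[T.W.K] T.W.H X) :
    cjf e (∑ i ∈ s, f i) = ∑ i ∈ s, cjf e (f i) := by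
  classical
  induction s using Finset.induction_on with
  | empty => rw [Finset.sum_empty, Finset.sum_empty, cjf_zero]
  | insert a s ha ih => rw [Finset.sum_insert ha, Finset.sum_insert ha, cjf_add, ih]

lemma cjf_cj (x : ℂ ⊗[T.W.K] T.W.H X) :
    Cj (T := T) (X := X) (show (CW T).H X from x) (show (CW T).H X from cjf e x) := by
  have h1 : x = ∑ j, (eC e).repr x j • eC e j := ((eC e).sum_repr x).symm
  let θ := Fintype.equivFin ι
  refine ⟨Fintype.card ι, fun i => (eC e).repr x (θ.symm i), fun i => e (θ.symm i), ?_, ?_⟩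
  · have h2 : x = ∑ i : Fin (Fintype.card ι), (eC e).repr x (θ.symm i) •
        ((1 : ℂ) ⊗ₜ[T.W.K] e (θ.symm i)) := by
      conv_lhs => rw [h1]
      rw [← Equiv.sum_comp θ.symm]
      exact Finset.sum_congr rfl fun i _ => by rw [eC_apply]
    exact h2
  · have h2 : cjf e x = ∑ i : Fin (Fintype.card ι), starRingEnd ℂ ((eC e).repr x (θ.symm i)) •
        ((1 : ℂ) ⊗ₜ[T.W.K] e (θ.symm i)) := by
      rw [cjf, ← Equiv.sum_comp θ.symm]
      exact Finset.sum_congr rfl fun i _ => by rw [eC_apply]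
    exact h2

lemma cjf_cjf (x : ℂ ⊗[T.W.K] T.W.H X) : cjf e (cjf e x) = x := by
  have h1 : ∀ j, (eC e).repr (cjf e x) j = starRingEnd ℂ ((eC e).repr x j) := by
    intro j
    rw [cjf, map_sum, Finsupp.coe_finsetSum, Finset.sum_apply, Finset.sum_eq_single j]
    · simp
    · intro i _ hi
      rw [map_smul, Finsupp.smul_apply, Basis.repr_self, Finsupp.single_eq_of_ne (Ne.symm hi),
        smul_zero]
    · intro h; exact absurd (Finset.mem_univ _) h
  rw [cjf]
  simp only [h1, Complex.conj_conj]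
  exact (eC e).sum_repr x

end Coord

end Pool.Agent.Q60.HD
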