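import Mathlib

/-!
# Explicit estimates for log-convex sequences
-/

namespace Pool.Agent.Q60.HD

/-- A ratio below `c` bounds all earlier ratios. -/
lemma ratio_back {α : ℕ → ℕ} (hpos : ∀ l, 0 < α l) (hconv : ∀ l, α (l + 1) ^ 2 ≤ α (l + 2) * α l)
    {c : ℝ} {l : ℕ} (h : (α (l + 1) : ℝ) ≤ c * α l) {i : ℕ} (hi : i ≤ l) :
    (α (i + 1) : ℝ) ≤ c * α i := by
  induction hi using Nat.decreasingInduction with
  | self => exact h
  | of_succ i _ ih =>
    have h1 : (0 : ℝ) < α i := by exact_mod_cast hpos i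
    have h2 : (0 : ℝ) < α (i + 1) := by exact_mod_cast hpos (i + 1)
    have h3 : (α (i + 1) : ℝ) ^ 2 ≤ α (i + 2) * α i := by exact_mod_cast hconv i
    have h4 : (α (i + 1) : ℝ) * α (i + 1) ≤ (c * α i) * α (i + 1) := by
      calc (α (i + 1) : ℝ) * α (i + 1) = (α (i + 1) : ℝ) ^ 2 := by ring
        _ ≤ α (i + 2) * α i := h3
        _ ≤ (c * α (i + 1)) * α i := mul_le_mul_of_nonneg_right ih h1.le
        _ = _ := by ring
    exact le_of_mul_le_mul_right h4 h2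

lemma geom_le {α : ℕ → ℕ} {c : ℝ} (hc : 0 ≤ c) {l : ℕ}
    (h : ∀ i < l, (α (i + 1) : ℝ) ≤ c * α i) : (α l : ℝ) ≤ c ^ l * α 0 := by
  induction l with
  | zero => simp
  | succ l ih =>
    calc (α (l + 1) : ℝ) ≤ c * α l := h l (Nat.lt_succ_self l)
      _ ≤ c * (c ^ l * α 0) :=
          mul_le_mul_of_nonneg_left (ih fun i hi => h i (hi.trans (Nat.lt_succ_self l))) hc
      _ = _ := by ring

/-- Bernoulli's inequality. -/
lemma bern {B η : ℝ} (hB : 0 < B) (hη : η ≤ B) {j : ℕ} (hj : 1 ≤ j) :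
    B ^ j - j * η * B ^ (j - 1) ≤ (B - η) ^ j := by
  have h1 : -2 ≤ -(η / B) := by
    have : η / B ≤ 1 := by rw [div_le_one hB]; exact hη
    linarith
  have h2 := one_add_mul_le_pow h1 j
  have h3 : B - η = B * (1 + -(η / B)) := by field_simp; ring
  rw [h3, mul_pow]
  have h4 : B ^ j - j * η * B ^ (j - 1) = B ^ j * (1 + j * -(η / B)) := by
    obtain ⟨i, rfl⟩ : ∃ i, j = i + 1 := ⟨j - 1, by omega⟩
    rw [Nat.add_sub_cancel, pow_succ]
    field_simp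
    ring
  rw [h4]
  exact mul_le_mul_of_nonneg_left h2 (pow_pos hB j).le

/-- The exponential beats the polynomial. -/
lemma exp_beats {x ε : ℝ} {b l : ℕ} (hb : 1 ≤ b) (hx : 0 < x) (hx1 : x ≤ 1) (hε : 0 < ε)
    (hl : 1 ≤ l) (h1 : 6 * (b : ℝ) ^ 2 ≤ x * Real.sqrt l) (h2 : 4 * b + 2 / ε ≤ x * l) :
    (b : ℝ) ^ 2 * ((1 - x) ^ l * ((l : ℝ) + 2) ^ b ^ 2) ≤ ε := by
  have hb0 : (0 : ℝ) < b := by exact_mod_cast hb
  have hb1 : (1 : ℝ) ≤ b := by exact_mod_cast hb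
  have hl0 : (1 : ℝ) ≤ l := by exact_mod_cast hl
  have e1 : (1 - x) ^ l ≤ Real.exp (-(x * l)) := by
    have h3 : 1 - x ≤ Real.exp (-x) := by
      have := Real.add_one_le_exp (-x)
      linarith
    calc (1 - x) ^ l ≤ Real.exp (-x) ^ l := pow_le_pow_left₀ (by linarith) h3 l
      _ = Real.exp (-(x * l)) := by rw [← Real.exp_nat_mul]; congr 1; ring
  have e2 : ((l : ℝ) + 2) ^ b ^ 2 ≤ Real.exp (3 * (b : ℝ) ^ 2 * Real.sqrt l) := by
    have h3 : (l : ℝ) + 2 ≤ Real.exp (3 * Real.sqrt l) := by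
      have h4 := Real.quadratic_le_exp_of_nonneg (x := 3 * Real.sqrt l) (by positivity)
      have h5 : Real.sqrt l ^ 2 = l := Real.sq_sqrt (by positivity)
      have h6 : 1 ≤ Real.sqrt l := Real.one_le_sqrt.2 hl0
      refine le_trans ?_ h4
      have h7 : (3 * Real.sqrt (l : ℝ)) ^ 2 = 9 * l := by rw [mul_pow, h5]; norm_num
      rw [h7]
      linarith
    calc ((l : ℝ) + 2) ^ b ^ 2 ≤ Real.exp (3 * Real.sqrt l) ^ b ^ 2 :=
          pow_le_pow_left₀ (by positivity) h3 _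
      _ = _ := by rw [← Real.exp_nat_mul]; congr 1; push_cast; ring
  have e3 : (b : ℝ) ^ 2 ≤ Real.exp (2 * b) := by
    have h3 : (b : ℝ) ≤ Real.exp b := by
      have := Real.add_one_le_exp (b : ℝ)
      linarith
    calc (b : ℝ) ^ 2 ≤ Real.exp b ^ 2 := pow_le_pow_left₀ hb0.le h3 2
      _ = _ := by rw [← Real.exp_nat_mul]; congr 1
  have e4 : Real.exp (-(1 / ε)) ≤ ε := by
    have h3 : 1 / ε ≤ Real.exp (1 / ε) := by
      have := Real.add_one_le_exp (1 / ε)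
      linarith
    rw [Real.exp_neg]
    have h4 : (Real.exp (1 / ε))⁻¹ ≤ (1 / ε)⁻¹ := inv_anti₀ (by positivity) h3
    exact h4.trans_eq (by rw [one_div, inv_inv])
  have e5 : 3 * (b : ℝ) ^ 2 * Real.sqrt l ≤ x * l / 2 := by
    have h5 : Real.sqrt l * Real.sqrt l = l := Real.mul_self_sqrt (by positivity)
    have h6 : 6 * (b : ℝ) ^ 2 * Real.sqrt l ≤ x * Real.sqrt l * Real.sqrt l :=
      mul_le_mul_of_nonneg_right h1 (Real.sqrt_nonneg _)
    rw [mul_assoc x, h5] at h6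
    linarith
  have e6 : 2 * (b : ℝ) + 1 / ε ≤ x * l / 2 := by
    have : 2 / ε = 2 * (1 / ε) := by ring
    rw [this] at h2
    linarith
  calc (b : ℝ) ^ 2 * ((1 - x) ^ l * ((l : ℝ) + 2) ^ b ^ 2)
      ≤ Real.exp (2 * b) * (Real.exp (-(x * l)) * Real.exp (3 * (b : ℝ) ^ 2 * Real.sqrt l)) := by
        refine mul_le_mul e3 (mul_le_mul e1 e2 (by positivity) (Real.exp_pos _).le) ?_
          (Real.exp_pos _).le
        exact mul_nonneg (pow_nonneg (by linarith) _) (by positivity)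
    _ = Real.exp (2 * b + (-(x * l) + 3 * (b : ℝ) ^ 2 * Real.sqrt l)) := by
        rw [← Real.exp_add, ← Real.exp_add]
    _ ≤ Real.exp (-(1 / ε)) := Real.exp_le_exp.2 (by linarith)
    _ ≤ ε := e4

end Pool.Agent.Q60.HD
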