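import Pool.Agent.Q60.HD.Phs
import Pool.Agent.Y133.Half.Growth

/-!
# Tensors and classes on the powers
-/

open CategoryTheory AlgebraicGeometry TensorProduct

set_option linter.unusedSectionVars false

universe u v

namespace Pool.Agent.Q60.HD

open Module Matrix
open Pool.Agent.H914 Pool.Agent.H914.VarClass Pool.Agent.H914.VarClass.Obj
  Pool.Agent.H914.WeilCohomology
open Pool.Agent.Y133.Half Pool.Agent.Y121.AH Pool.Agent.Q60.ED

variable {k : Type u} [Field k] {𝒱 : VarClass k} {ops : CycleOps 𝒱}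

section General

variable {W : WeilCohomology.{u, v} ops} {X Y Z : 𝒱.Obj} {ι : Type} [Fintype ι] [DecidableEq ι]
  (e : Basis ι W.K (W.H X))

/-- The product of the pull-backs of basis elements. -/
noncomputable def wd {n : ℕ} (f : Fin n → (Z ⟶ X)) (w : Fin n → ι) : W.H Z :=
  (List.ofFn fun i => W.map (f i) (e (w i))).prod

/-- The class of a rational tensor. -/
noncomputable def cls {n : ℕ} (f : Fin n → (Z ⟶ X)) (t : (Fin n → ι) → ℚ) : W.H Z :=
  ∑ w, (t w : W.K) • wd e f w

lemma cls_add {n : ℕ} (f : Fin n → (Z ⟶ X)) (s t : (Fin n → ι) → ℚ) :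
    cls e f (s + t) = cls e f s + cls e f t := by
  simp only [cls, Pi.add_apply, Rat.cast_add, add_smul, Finset.sum_add_distrib]

lemma cls_smul {n : ℕ} (f : Fin n → (Z ⟶ X)) (q : ℚ) (t : (Fin n → ι) → ℚ) :
    cls e f (q • t) = (q : W.K) • cls e f t := by
  simp only [cls, Pi.smul_apply, smul_eq_mul, Rat.cast_mul, Finset.smul_sum, smul_smul]

lemma cls_zero {n : ℕ} (f : Fin n → (Z ⟶ X)) : cls e f (0 : (Fin n → ι) → ℚ) = 0 := by
  simp [cls]

lemma wd_zero (f : Fin 0 → (Z ⟶ X)) (w : Fin 0 → ι) : wd e f w = 1 := by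
  rw [wd, List.ofFn_zero, List.prod_nil]

lemma wd_succ {n : ℕ} (f : Fin (n + 1) → (Z ⟶ X)) (w : Fin (n + 1) → ι) :
    wd e f w = W.map (f 0) (e (w 0)) * wd e (fun i => f i.succ) (fun i => w i.succ) := by
  rw [wd, List.ofFn_succ, List.prod_cons, wd]

lemma wd_map {n : ℕ} (g : Y ⟶ Z) (f : Fin n → (Z ⟶ X)) (w : Fin n → ι) :
    W.map g (wd e f w) = wd e (fun i => g ≫ f i) w := by
  rw [wd, map_list_prod, List.map_ofFn, wd]
  congr 2
  funext i
  rw [Function.comp_apply, W.map_comp]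

lemma cls_map {n : ℕ} (g : Y ⟶ Z) (f : Fin n → (Z ⟶ X)) (t : (Fin n → ι) → ℚ) :
    W.map g (cls e f t) = cls e (fun i => g ≫ f i) t := by
  rw [cls, map_sum]
  exact Finset.sum_congr rfl fun w _ => by rw [map_smul, wd_map]

lemma wd_prj (n : ℕ) (w : Fin (n + 1) → ι) : wd e (prj X n) w = wb e n w := (wb_eq e n w).symm

/-- The tensors whose classes belong to the system. -/
noncomputable def crd (S : Sys W) (n : ℕ) : Submodule ℚ ((Fin n → ι) → ℚ) where
  carrier := {t | ∀ (Z : 𝒱.Obj) (f : Fin n → (Z ⟶ X)), cls e f t ∈ S.C Z}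
  add_mem' ha hb Z f := by rw [cls_add]; exact Submodule.add_mem _ (ha Z f) (hb Z f)
  zero_mem' Z f := by rw [cls_zero]; exact Submodule.zero_mem _
  smul_mem' q t ht Z f := by rw [cls_smul]; exact Submodule.smul_mem _ _ (ht Z f)

lemma mem_crd {S : Sys W} {n : ℕ} {t : (Fin n → ι) → ℚ} :
    t ∈ crd e S n ↔ ∀ (Z : 𝒱.Obj) (f : Fin n → (Z ⟶ X)), cls e f t ∈ S.C Z := Iff.rfl

lemma mem_crd_zero {S : Sys W} (t : (Fin 0 → ι) → ℚ) : t ∈ crd e S 0 := by
  intro Z f
  rw [cls]
  refine Submodule.sum_mem _ fun w _ => ?_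
  rw [wd_zero]
  exact Submodule.smul_mem _ _ (S.one Z)

lemma mem_crd_succ {S : Sys W} {n : ℕ} {t : (Fin (n + 1) → ι) → ℚ} :
    t ∈ crd e S (n + 1) ↔ cls e (prj X n) t ∈ S.C (pw X n) := by
  constructor
  · intro h; exact h _ _
  · intro h Z f
    have h1 := S.map (liftN X n f) h
    rw [cls_map] at h1
    have h2 : (fun i => liftN X n f ≫ prj X n i) = f := funext fun i => liftN_prj n f i
    rwa [h2] at h1

end General

section Hodge

variable {T : HodgeTheory ops} {X Y Z : 𝒱.Obj} {ι : Type} [Fintype ι] [DecidableEq ι]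
  (e : Basis ι T.W.K (T.W.H X))

lemma em_sum {α : Type*} (s : Finset α) (f : α → T.W.H X) :
    em T.W ℂ (∑ i ∈ s, f i) = ∑ i ∈ s, em T.W ℂ (f i) :=
  map_sum (AddMonoidHom.mk' (em T.W ℂ (X := X)) em_add) f s

lemma ex_cast (q : ℚ) : ex T.W ℂ (q : T.W.K) = (show (CW T).K from (q : ℂ)) :=
  map_ratCast (algebraMap T.W.K ℂ) q

lemma zop_e (z : ℂ) (b : ι) : zop T z X (em T.W ℂ (e b)) =
    ∑ a, (show (CW T).K from mt e (zop T z X) a b) • em T.W ℂ (e a) := by
  have h1 : (show ℂ ⊗[T.W.K] T.W.H X from zop T z X (eC e b)) =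
      ∑ a, mt e (zop T z X) a b • eC e a := by
    have h2 := ((eC e).sum_repr (zop T z X (eC e b))).symm
    refine h2.trans (Finset.sum_congr rfl fun a _ => ?_)
    rw [mt, LinearMap.toMatrix_apply]
    rfl
  rw [eC_apply] at h1
  refine Eq.trans h1 ?_
  refine Finset.sum_congr rfl fun a _ => ?_
  rw [eC_apply]
  rfl

lemma smul_sum' {α : Type*} (s : Finset α) (c : (CW T).K) (f : α → (CW T).H X) :
    c • ∑ i ∈ s, f i = ∑ i ∈ s, c • f i := Finset.smul_sum

/-- The action on products of pull-backs of basis elements. -/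
lemma zop_wd {z : ℂ} (hz : z ≠ 0) {n : ℕ} (f : Fin n → (Z ⟶ X)) (w : Fin n → ι) :
    zop T z Z (em T.W ℂ (wd e f w)) =
      ∑ J : Fin n → ι, (show (CW T).K from ∏ i, mt e (zop T z X) (J i) (w i)) •
        em T.W ℂ (wd e f J) := by
  induction n with
  | zero =>
    have h2 : IsHodge T Z 0 (1 : T.W.H Z) := by
      rw [← T.W.cl_fund Z]; exact IsHodge.cl Z.V.fundCycle_mem
    rw [wd_zero, zop_hodge z h2]
    rw [Fintype.sum_unique]
    rw [wd_zero]
    exact (one_smul (CW T).K _).symm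
  | succ n ih =>
    rw [wd_succ, em_mul, zop_mul hz, ih, ← em_map, zop_map, zop_e, map_sum, Finset.sum_mul_sum,
      ← Fintype.sum_prod_type', ← (Fin.consEquiv fun _ => ι).sum_comp]
    refine Finset.sum_congr rfl fun p _ => ?_
    rw [map_smul, smul_mul_smul_comm, em_map, ← em_mul]
    have h1 : wd e f ((Fin.consEquiv fun _ => ι) p) =
        T.W.map (f 0) (e p.1) * wd e (fun i => f i.succ) p.2 := by
      rw [wd_succ]
      rfl
    rw [h1]
    congr 1
    have h2 : ∏ i, mt e (zop T z X) ((Fin.consEquiv fun _ => ι) p i) (w i) =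
        mt e (zop T z X) p.1 (w 0) * ∏ i : Fin n, mt e (zop T z X) (p.2 i) (w i.succ) := by
      rw [Fin.prod_univ_succ]
      rfl
    exact h2.symm

lemma zop_cls {z : ℂ} (hz : z ≠ 0) {n : ℕ} (f : Fin n → (Z ⟶ X)) (t : (Fin n → ι) → ℚ) :
    zop T z Z (em T.W ℂ (cls e f t)) = ∑ J : Fin n → ι,
      (show (CW T).K from tpow (mt e (zop T z X)) n (cx t) J) • em T.W ℂ (wd e f J) := by
  rw [cls, em_sum, map_sum]
  have h1 : ∀ w : Fin n → ι, zop T z Z (em T.W ℂ ((t w : T.W.K) • wd e f w)) =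
      ∑ J : Fin n → ι, (show (CW T).K from (∏ i, mt e (zop T z X) (J i) (w i)) * cx t w) •
        em T.W ℂ (wd e f J) := by
    intro w
    rw [em_smul, map_smul, zop_wd e hz, smul_sum', ex_cast]
    refine Finset.sum_congr rfl fun J _ => ?_
    rw [smul_smul]
    congr 1
    exact mul_comm (G := ℂ) _ _
  simp only [h1]
  rw [Finset.sum_comm]
  refine Finset.sum_congr rfl fun J _ => ?_
  have h2 := (Finset.sum_smul (R := (CW T).K) (M := (CW T).H Z) (s := Finset.univ)
    (f := fun w : Fin n → ι => (show (CW T).K from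
      (∏ i, mt e (zop T z X) (J i) (w i)) * cx t w)) (x := em T.W ℂ (wd e f J))).symm
  exact h2

lemma em_cls {n : ℕ} (f : Fin n → (Z ⟶ X)) (t : (Fin n → ι) → ℚ) :
    em T.W ℂ (cls e f t) = ∑ J : Fin n → ι,
      (show (CW T).K from cx t J) • em T.W ℂ (wd e f J) := by
  rw [cls, em_sum]
  refine Finset.sum_congr rfl fun J _ => ?_
  rw [em_smul, ex_cast]
  rfl

/-- **The invariant tensors are the coordinates of the Hodge classes.** -/
theorem T_eq_crd (hR : RealH T X) {φ : Module.End T.W.K (T.W.H X)} (h : IsPol T X φ) (n : ℕ) :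
    (phs e hR h).T n = crd e (hodgeSys T) n := by
  ext t
  constructor
  · intro ht Z f
    apply mem_sys_of_fix
    intro z hz
    rw [zop_cls e hz, em_cls]
    have h1 := ht z hz
    rw [phs_c e hR h hz] at h1
    rw [h1]
  · intro ht
    cases n with
    | zero =>
      intro z hz
      funext J
      rw [tpow_apply, Fintype.sum_unique]
      rw [Finset.univ_eq_empty, Finset.prod_empty, one_mul]
      congr 1
      exact Subsingleton.elim _ _
    | succ n =>
      rw [mem_crd_succ] at ht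
      intro z hz
      rw [phs_c e hR h hz]
      have h1 := zop_sys z ht
      rw [zop_cls e hz, em_cls] at h1
      have h2 : ∑ J, tpow (mt e (zop T z X)) (n + 1) (cx t) J • ((wb e n).baseChange ℂ) J =
          ∑ J, cx t J • ((wb e n).baseChange ℂ) J := by
        have h3 : ∀ J, ((wb e n).baseChange ℂ) J = (1 : ℂ) ⊗ₜ[T.W.K] wd e (prj X n) J := by
          intro J
          rw [Basis.baseChange_apply, wd_prj]
        simp only [h3]
        exact h1
      funext J
      have h4 := congrArg (fun x => ((wb e n).baseChange ℂ).repr x J) h2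
      simpa [Finsupp.single_apply] using h4

end Hodge

end Pool.Agent.Q60.HD
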