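import Pool.Agent.Y121.AH.HR
import Pool.Agent.H914R2.GConv

/-!
# The action of the complex numbers on the cohomology given by the Hodge decomposition
-/

open CategoryTheory AlgebraicGeometry TensorProduct

universe u

namespace Pool.Agent.Q60.HD

open Module
open Pool.Agent.H914 Pool.Agent.H914.VarClass Pool.Agent.H914.VarClass.Obj
  Pool.Agent.H914.WeilCohomology
open Pool.Agent.Y133.Half Pool.Agent.Y121.AH

variable {k : Type u} [Field k] {𝒱 : VarClass k} {ops : CycleOps 𝒱} (T : HodgeTheory ops)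
  {X Y : 𝒱.Obj}

/-- The operator `z ^ (q - p)` on the part of type `(p, q)`. -/
noncomputable def zop (z : ℂ) (X : 𝒱.Obj) : Module.End (CW T).K ((CW T).H X) :=
  dia (isInternal T X) fun r => (show (CW T).K from z ^ (r.2 - r.1))

variable {T}

lemma zop_pq (z : ℂ) {p q : ℤ} {x : (CW T).H X} (hx : x ∈ T.pq X p q) :
    zop T z X x = (show (CW T).K from z ^ (q - p)) • x :=
  dia_apply (isInternal T X) _ (i := (p, q)) hx

lemma zop_mul {z : ℂ} (hz : z ≠ 0) (x y : (CW T).H X) :
    zop T z X (x * y) = zop T z X x * zop T z X y := by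
  refine pq_ind T (p := fun x => zop T z X (x * y) = zop T z X x * zop T z X y) ?_ ?_ ?_ x
  · intro a b x hx
    refine pq_ind T (p := fun y => zop T z X (x * y) = zop T z X x * zop T z X y) ?_ ?_ ?_ y
    · intro c d y hy
      rw [zop_pq z hx, zop_pq z hy, zop_pq z (T.dec.mul hx hy), smul_mul_smul_comm]
      congr 1
      have h1 : z ^ (b - a) * z ^ (d - c) = z ^ (b + d - (a + c)) := by
        rw [← zpow_add₀ hz]
        congr 1
        ring
      exact h1.symm
    · intro y z hy hz; rw [mul_add, map_add, hy, hz, map_add, mul_add]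
    · rw [mul_zero, map_zero, mul_zero]
  · intro x z hx hz; rw [add_mul, map_add, hx, hz, map_add, add_mul]
  · rw [zero_mul, map_zero, zero_mul]

lemma zop_map (z : ℂ) (f : X ⟶ Y) (y : (CW T).H Y) :
    zop T z X ((CW T).map f y) = (CW T).map f (zop T z Y y) := by
  refine pq_ind T (p := fun y => zop T z X ((CW T).map f y) = (CW T).map f (zop T z Y y))
    ?_ ?_ ?_ y
  · intro a b y hy
    rw [zop_pq z hy, zop_pq z (T.dec.map f hy), map_smul]
  · intro y z hy hz; rw [map_add, map_add, hy, hz, map_add, map_add]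
  · rw [map_zero, map_zero, map_zero, map_zero]

lemma zop_push (z : ℂ) (f : X ⟶ Y) (x : (CW T).H X) :
    zop T z Y ((CW T).push f x) = (CW T).push f (zop T z X x) := by
  refine pq_ind T (p := fun x => zop T z Y ((CW T).push f x) = (CW T).push f (zop T z X x))
    ?_ ?_ ?_ x
  · intro a b x hx
    rw [zop_pq z hx, zop_pq z (T.dec.push f hx), map_smul]
    congr 1
    have h1 : b + (Y.dim : ℤ) - X.dim - (a + Y.dim - X.dim) = b - a := by ring
    rw [h1]
  · intro y z hy hz; rw [map_add, map_add, hy, hz, map_add, map_add]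
  · rw [map_zero, map_zero, map_zero, map_zero]

lemma zop_one (x : (CW T).H X) : zop T 1 X x = x := by
  refine pq_ind T (p := fun x => zop T 1 X x = x) ?_ ?_ ?_ x
  · intro a b x hx
    rw [zop_pq 1 hx, one_zpow]
    exact one_smul (CW T).K x
  · intro y z hy hz; rw [map_add, hy, hz]
  · rw [map_zero]

lemma zop_zop {z z' : ℂ} (x : (CW T).H X) :
    zop T z X (zop T z' X x) = zop T (z * z') X x := by
  refine pq_ind T (p := fun x => zop T z X (zop T z' X x) = zop T (z * z') X x) ?_ ?_ ?_ x
  · intro a b x hx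
    rw [zop_pq z' hx, zop_pq (z * z') hx, map_smul, zop_pq z hx, smul_smul]
    congr 1
    have h1 : z' ^ (b - a) * z ^ (b - a) = (z * z') ^ (b - a) := by
      rw [mul_zpow, mul_comm]
    exact h1
  · intro y z hy hz; rw [map_add, map_add, hy, hz, map_add]
  · simp only [map_zero]

lemma zop_hodge (z : ℂ) {j : ℕ} {c : T.W.H X} (hc : IsHodge T X j c) :
    zop T z X (em T.W ℂ c) = em T.W ℂ c := by
  rw [zop_pq z hc.2, sub_self, zpow_zero]
  exact one_smul (CW T).K _

lemma zop_half (x : (CW T).H X) : zop T (2⁻¹ : ℂ) X x = gop T X x := by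
  refine pq_ind T (p := fun x => zop T (2⁻¹ : ℂ) X x = gop T X x) ?_ ?_ ?_ x
  · intro a b x hx
    rw [zop_pq _ hx, gop_pq hx]
    congr 1
    have h1 : (2⁻¹ : ℂ) ^ (b - a) = 2 ^ (a - b) := by
      rw [inv_zpow', neg_sub]
    exact h1
  · intro y z hy hz; rw [map_add, map_add, hy, hz]
  · rw [map_zero, map_zero]

/-- The Hodge classes are fixed by the action. -/
lemma zop_sys (z : ℂ) {c : T.W.H X} (hc : c ∈ (hodgeSys T).C X) :
    zop T z X (em T.W ℂ c) = em T.W ℂ c := by
  refine ClassPred.sp_ind (Q := hodgePred T)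
    (q := fun c => zop T z X (em T.W ℂ c) = em T.W ℂ c) ?_ ?_ ?_ hc
  · intro j x hx; exact zop_hodge z hx
  · rw [em_zero, map_zero]
  · intro a b ha hb; rw [em_add, map_add, ha, hb]

/-- The action preserves the degrees. -/
lemma zop_gr (z : ℂ) {i : ℕ} {c : T.W.H X} (hc : c ∈ T.W.gr X i) :
    zop T z X (em T.W ℂ c) ∈ (CW T).gr X i := by
  refine Submodule.iSup_induction (fun r : {r : ℤ × ℤ // r.1 + r.2 = i} => T.pq X r.1.1 r.1.2)
    (motive := fun x => zop T z X x ∈ (CW T).gr X i) (T.dec.span hc) ?_ ?_ ?_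
  · intro r x hx
    rw [zop_pq z hx]
    exact Submodule.smul_mem _ _ (T.dec.le X r.2 hx)
  · rw [map_zero]; exact Submodule.zero_mem _
  · intro x y hx hy; rw [map_add]; exact Submodule.add_mem _ hx hy

/-- Maps which preserve the degrees commute with the projections. -/
lemma proj_comm {F : T.W.H X → (CW T).H X} (h0 : F 0 = 0) (hadd : ∀ a b, F (a + b) = F a + F b)
    (hgr : ∀ i, ∀ c ∈ T.W.gr X i, F c ∈ (CW T).gr X i) (i : ℕ) (c : T.W.H X) :
    H914.proj ((CW T).isInternal X) i (F c) = F (H914.proj (T.W.isInternal X) i c) := by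
  refine gr_induction (T.W.isInternal X) (p := fun c =>
    H914.proj ((CW T).isInternal X) i (F c) = F (H914.proj (T.W.isInternal X) i c)) ?_ ?_ c
  · intro j a ha
    by_cases h : j = i
    · subst h
      rw [proj_same _ ha, proj_same _ (hgr _ _ ha)]
    · rw [proj_ne _ ha h, proj_ne _ (hgr _ _ ha) h, h0]
  · intro a b ha hb
    rw [hadd, map_add, ha, hb, map_add, hadd]

lemma zop_neg {i : ℕ} {c : T.W.H X} (hc : c ∈ T.W.gr X i) :
    zop T (-1) X (em T.W ℂ c) = ((-1) ^ i : (CW T).K) • em T.W ℂ c := by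
  refine Submodule.iSup_induction (fun r : {r : ℤ × ℤ // r.1 + r.2 = i} => T.pq X r.1.1 r.1.2)
    (motive := fun x => zop T (-1) X x = ((-1) ^ i : (CW T).K) • x) (T.dec.span hc) ?_ ?_ ?_
  · rintro ⟨⟨p, q⟩, hr⟩ x hx
    rw [zop_pq (-1) hx]
    congr 1
    have h1 : (-1 : ℂ) ^ (q - p) = (-1) ^ i := by
      have h2 : q - p = i + 2 * (-p) := by
        have : p + q = i := hr
        omega
      rw [h2, zpow_add₀ (by norm_num), zpow_natCast, zpow_mul]
      norm_num
    exact h1
  · rw [map_zero, smul_zero]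
  · intro x y hx hy; rw [map_add, hx, hy, smul_add]

/-- **Rational classes fixed by the action are sums of Hodge classes.** -/
lemma mem_sys_of_fix {c : T.W.H X} (h : ∀ z : ℂ, z ≠ 0 → zop T z X (em T.W ℂ c) = em T.W ℂ c) :
    c ∈ (hodgeSys T).C X := by
  have hi : ∀ (z : ℂ), z ≠ 0 → ∀ i, zop T z X (em T.W ℂ (H914.proj (T.W.isInternal X) i c)) =
      em T.W ℂ (H914.proj (T.W.isInternal X) i c) := by
    intro z hz i
    have h1 := proj_comm (T := T) (X := X) (F := fun c => em T.W ℂ c) em_zero em_add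
      (fun i c hc => em_gr hc) i c
    have h2 := proj_comm (T := T) (X := X) (F := fun c => zop T z X (em T.W ℂ c))
      (by rw [em_zero, map_zero]) (fun a b => by rw [em_add, map_add])
      (fun i c hc => zop_gr z hc) i c
    beta_reduce at h1 h2
    rw [← h2, h z hz, h1]
  have hsum : c = ∑ i ∈ Finset.range (2 * X.dim + 1), H914.proj (T.W.isInternal X) i c := by
    refine gr_induction (T.W.isInternal X) (p := fun c =>
      c = ∑ i ∈ Finset.range (2 * X.dim + 1), H914.proj (T.W.isInternal X) i c) ?_ ?_ c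
    · intro j a ha
      by_cases hj : j < 2 * X.dim + 1
      · rw [Finset.sum_eq_single j, proj_same _ ha]
        · intro i _ hij
          exact proj_ne _ ha (Ne.symm hij)
        · intro h; exact absurd (Finset.mem_range.2 hj) h
      · rw [T.W.gr_eq_bot X j (by omega)] at ha
        rw [(Submodule.mem_bot _).1 ha]
        simp
    · intro a b ha hb
      conv_lhs => rw [ha, hb]
      simp only [map_add, Finset.sum_add_distrib]
  rw [hsum]
  refine Submodule.sum_mem _ fun i _ => ?_
  rcases Nat.even_or_odd i with hev | hodd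
  · obtain ⟨j, rfl⟩ : ∃ j, i = 2 * j := ⟨i / 2, by have := Nat.even_iff.1 hev; omega⟩
    apply ClassPred.sp_of (Q := hodgePred T) (j := j)
    refine isHodge_of_fix (proj_mem _ _ _) ?_
    rw [← zop_half]
    exact hi _ (by norm_num) _
  · have h1 := hi (-1) (by norm_num) i
    rw [zop_neg (proj_mem _ _ _), hodd.neg_one_pow] at h1
    have h2 : em T.W ℂ (H914.proj (T.W.isInternal X) i c) = 0 := by
      have h3 : (2 : (CW T).K) • em T.W ℂ (H914.proj (T.W.isInternal X) i c) = 0 := by
        have h4 : (2 : (CW T).K) • em T.W ℂ (H914.proj (T.W.isInternal X) i c) =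
            em T.W ℂ (H914.proj (T.W.isInternal X) i c) -
              (-1 : (CW T).K) • em T.W ℂ (H914.proj (T.W.isInternal X) i c) := by
          rw [two_smul, neg_smul, one_smul, sub_neg_eq_add]
        rw [h4, h1, sub_self]
      exact (smul_eq_zero.1 h3).resolve_left two_ne
    rw [em_injective h2]
    exact Submodule.zero_mem _

lemma mem_sys_iff {c : T.W.H X} : c ∈ (hodgeSys T).C X ↔
    ∀ z : ℂ, z ≠ 0 → zop T z X (em T.W ℂ c) = em T.W ℂ c :=
  ⟨fun h z _ => zop_sys z h, mem_sys_of_fix⟩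

end Pool.Agent.Q60.HD
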